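import Pool.Agent.J4H27.CY.Zer
import Pool.Agent.J4H27.AB.Fin

/-!
# Counting the exceptional points on an orbit of a translation
-/

set_option autoImplicit false
set_option linter.unusedSectionVars false

open MvPolynomial NumberField Height Pool.Agent.TH954.X Pool.Agent.TH954.Z
  Pool.Agent.TH954.Z.Dns Pool.Agent.J4H27.ML Pool.Agent.J4H27.AB

namespace Pool.Agent.J4H27.CY

section seq

/-- a sequence with constant second differences -/
lemma quad_seq (f : ℕ → ℝ) (a : ℝ) (h : ∀ m, f (m + 2) + f m = 2 * f (m + 1) + 2 * a) (m : ℕ) :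
    f m = f 0 + m * (f 1 - f 0 - a) + m ^ 2 * a ∧
      f (m + 1) = f 0 + (m + 1) * (f 1 - f 0 - a) + (m + 1) ^ 2 * a := by
  induction m with
  | zero =>
    constructor
    · simp
    · simp only [Nat.cast_zero, zero_add]
      ring
  | succ m ih =>
    obtain ⟨h1, h2⟩ := ih
    push_cast
    refine ⟨h2, ?_⟩
    have h3 := h m
    have h4 : f (m + 1 + 1) = 2 * f (m + 1) + 2 * a - f m := by linarith
    rw [h4, h2, h1]
    ring

lemma quad_bounds (f g : ℕ → ℝ) (a C : ℝ) (ha : 0 < a)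
    (h : ∀ m, f (m + 2) + f m = 2 * f (m + 1) + 2 * a) (hg : ∀ m, |f m - g m| ≤ C) :
    ∃ M : ℕ, ∀ m : ℕ, M ≤ m → a / 2 * m ^ 2 ≤ g m ∧ g m ≤ 2 * a * m ^ 2 := by
  set b := |f 1 - f 0 - a| with hb
  set c := |f 0| + |C| with hc
  have hb0 : 0 ≤ b := abs_nonneg _
  have hc0 : 0 ≤ c := by positivity
  obtain ⟨M, hM⟩ := exists_nat_ge ((2 * (b + c) + 1) / a + 1)
  refine ⟨M, fun m hm => ?_⟩
  have hmM : (M : ℝ) ≤ m := by exact_mod_cast hm
  have h1 : (2 * (b + c) + 1) / a ≤ m := by linarith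
  have hm1 : (1 : ℝ) ≤ m := by
    have : 0 ≤ (2 * (b + c) + 1) / a := by positivity
    linarith
  rw [div_le_iff₀ ha] at h1
  have h2 := (quad_seq f a h m).1
  have h3 := abs_le.1 (hg m)
  have h4 : |f 0 + m * (f 1 - f 0 - a)| ≤ |f 0| + m * b := by
    refine (abs_add_le _ _).trans ?_
    rw [abs_mul, Nat.abs_cast]
  have h5 := abs_le.1 h4
  have h6 : C ≤ |C| := le_abs_self C
  have h7 : |f 0| + |C| ≤ m * c := by nlinarith
  have h8 : (m : ℝ) * (b + c) ≤ m * (m * a / 2) := by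
    refine mul_le_mul_of_nonneg_left ?_ (by linarith)
    linarith
  constructor
  · nlinarith [h5.1, h3.2]
  · nlinarith [h5.2, h3.1]

/-- sets of natural numbers with boundedly many elements in the dyadic intervals -/
lemma log_count (S : Set ℕ) (C : ℕ)
    (hC : ∀ N : ℕ, {m | N ≤ m ∧ m ≤ 2 * N ∧ m ∈ S}.ncard ≤ C) (k : ℕ) :
    {m | m ≤ 2 ^ k ∧ m ∈ S}.ncard ≤ 2 + C * k := by
  induction k with
  | zero =>
    have h1 : {m | m ≤ 2 ^ 0 ∧ m ∈ S} ⊆ ((Finset.range 2 : Finset ℕ) : Set ℕ) := by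
      rintro m ⟨hm, -⟩
      rw [Finset.mem_coe, Finset.mem_range]
      rw [pow_zero] at hm
      omega
    have h2 := Set.ncard_le_ncard h1 (Finset.finite_toSet _)
    rw [Set.ncard_coe_finset, Finset.card_range] at h2
    omega
  | succ k ih =>
    have h1 : {m | m ≤ 2 ^ (k + 1) ∧ m ∈ S} ⊆
        {m | m ≤ 2 ^ k ∧ m ∈ S} ∪ {m | 2 ^ k ≤ m ∧ m ≤ 2 * 2 ^ k ∧ m ∈ S} := by
      rintro m ⟨hm, hS⟩
      rcases le_total m (2 ^ k) with h | h
      · exact Or.inl ⟨h, hS⟩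
      · refine Or.inr ⟨h, ?_, hS⟩
        rw [pow_succ] at hm
        omega
    have hf : ∀ T : Set ℕ, ∀ M : ℕ, T ⊆ {m | m ≤ M} → T.Finite := fun T M h =>
      (Set.finite_le_nat M).subset h
    have h2 := Set.ncard_le_ncard h1 (Set.Finite.union
      (hf _ (2 ^ k) (fun m hm => hm.1)) (hf _ (2 * 2 ^ k) (fun m hm => hm.2.1)))
    have h3 := Set.ncard_union_le {m | m ≤ 2 ^ k ∧ m ∈ S} {m | 2 ^ k ≤ m ∧ m ≤ 2 * 2 ^ k ∧ m ∈ S}
    have h4 := hC (2 ^ k)
    have h5 : C * (k + 1) = C * k + C := by ring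
    omega

lemma log_count' (S : Set ℕ) (C : ℕ)
    (hC : ∀ N : ℕ, {m | N ≤ m ∧ m ≤ 2 * N ∧ m ∈ S}.ncard ≤ C) (N : ℕ) (hN : 2 ≤ N) :
    (({m | m ≤ N ∧ m ∈ S}.ncard : ℕ) : ℝ) ≤ (2 + 2 * C) / Real.log 2 * Real.log N := by
  have hl2 : 0 < Real.log 2 := Real.log_pos (by norm_num)
  have hN' : (2 : ℝ) ≤ N := by exact_mod_cast hN
  have hlN : Real.log 2 ≤ Real.log N := Real.log_le_log (by norm_num) hN'
  set k := Nat.clog 2 N with hk
  have h1 : N ≤ 2 ^ k := Nat.le_pow_clog (by norm_num) N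
  have h2 : 2 ^ (k - 1) < N := by
    have h3 : 0 < k := Nat.clog_pos (by norm_num) hN
    exact Nat.pow_pred_clog_lt_self (by norm_num) hN
  have h3 : ((k - 1 : ℕ) : ℝ) * Real.log 2 ≤ Real.log N := by
    rw [← Real.log_pow]
    refine Real.log_le_log (by positivity) ?_
    exact_mod_cast h2.le
  have h4 : (k : ℝ) ≤ 2 * (Real.log N / Real.log 2) := by
    have h5 : (k : ℝ) ≤ ((k - 1 : ℕ) : ℝ) + 1 := by
      have : k ≤ (k - 1) + 1 := by omega
      exact_mod_cast this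
    have h6 : ((k - 1 : ℕ) : ℝ) ≤ Real.log N / Real.log 2 := by
      rw [le_div_iff₀ hl2]
      exact h3
    have h7 : 1 ≤ Real.log N / Real.log 2 := by
      rw [le_div_iff₀ hl2, one_mul]
      exact hlN
    linarith
  have h5 : {m | m ≤ N ∧ m ∈ S} ⊆ {m | m ≤ 2 ^ k ∧ m ∈ S} := fun m hm => ⟨hm.1.trans h1, hm.2⟩
  have h6 := (Set.ncard_le_ncard h5 ((Set.finite_le_nat (2 ^ k)).subset (fun m hm => hm.1))).trans
    (log_count S C hC k)
  have h7 : (({m | m ≤ N ∧ m ∈ S}.ncard : ℕ) : ℝ) ≤ 2 + C * k := by exact_mod_cast h6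
  have h8 : (2 + 2 * (C : ℝ)) / Real.log 2 * Real.log N =
      (2 + 2 * C) * (Real.log N / Real.log 2) := by ring
  rw [h8]
  have h9 : 1 ≤ Real.log N / Real.log 2 := by
    rw [le_div_iff₀ hl2, one_mul]
    exact hlN
  have h10 : (0 : ℝ) ≤ C := Nat.cast_nonneg _
  nlinarith

end seq

section main

variable {K : Type} [Field K] [NumberField K] {n β : ℕ}

/-- the heights of the points of a dense orbit grow quadratically -/
theorem ht_orbit (A : Fin β → AbV K n) (hdim : 0 < ∑ b, (A b).dim) (P Q0 : Bp A K)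
    (hd : ∀ (Φ : MvPolynomial (Fin β × Fin n) K) (δ : Fin β → ℕ), MH δ Φ →
      (∀ m : ℕ, ev Φ (vc (Q0 + m • P)) = 0) → ¬ NZ A Φ) :
    ∃ (a : ℝ) (M : ℕ), 0 < a ∧ ∀ m : ℕ, M ≤ m →
      a / 2 * m ^ 2 ≤ ht (Q0 + m • P) ∧ ht (Q0 + m • P) ≤ 2 * a * m ^ 2 := by
  classical
  have hcan : ∀ b, ∃ C : ℝ, 0 ≤ C ∧ ∃ q : (A b).Pt K → ℝ, (∀ P, 0 ≤ q P) ∧
      (∀ P Q, q (P + Q) + q (P - Q) = 2 * (q P + q Q)) ∧
      (∀ P, |q P - logHeight P.1| ≤ C) := by
    intro b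
    obtain ⟨C, hC, hC'⟩ := Pool.Agent.TH954.X.canA (A b).toAbR
    obtain ⟨q, hq1, hq2, hq3⟩ := hC' K
    exact ⟨C * Module.finrank ℚ K, by positivity, q, hq1, hq2, hq3⟩
  choose C hC q hq1 hq2 hq3 using hcan
  set Q : Bp A K → ℝ := fun R => ∑ b, q b (R b) with hQ
  have hQ1 : ∀ R, |Q R - ht R| ≤ ∑ b, C b := by
    intro R
    unfold ht
    rw [hQ, ← Finset.sum_sub_distrib]
    exact (Finset.abs_sum_le_sum_abs _ _).trans (Finset.sum_le_sum fun b _ => hq3 b (R b))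
  have hQ2 : ∀ R S, Q (R + S) + Q (R - S) = 2 * (Q R + Q S) := by
    intro R S
    rw [hQ]
    beta_reduce
    rw [← Finset.sum_add_distrib, ← Finset.sum_add_distrib, Finset.mul_sum]
    exact Finset.sum_congr rfl fun b _ => hq2 b (R b) (S b)
  have hQ0 : ∀ R, 0 ≤ Q R := fun R => Finset.sum_nonneg fun b _ => hq1 b _
  have hnorth : ∀ T : ℝ, {R : Bp A K | ht R ≤ T}.Finite := by
    intro T
    have h1 : (Set.univ.pi (fun b => {P : (A b).Pt K | logHeight P.1 ≤ T})).Finite :=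
      Set.Finite.pi' (fun b => CntAux.north (A b).toAbR T) |>.subset
        (fun v hv i => hv i (Set.mem_univ i))
    refine h1.subset ?_
    intro P hP b _
    show logHeight (P b).1 ≤ T
    refine le_trans ?_ hP
    exact Finset.single_le_sum (f := fun b => logHeight (vc P b))
      (fun b _ => logHeight_nonneg _) (Finset.mem_univ b)
  -- the orbit is infinite
  have hinf : ¬ (Set.range (fun m : ℕ => Q0 + m • P)).Finite := by
    intro hfin
    obtain ⟨N, H, h1, h2⟩ := cov_finite (A := A) hdim hfin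
    choose Φ τ h3 h4 h5 h6 using h1
    have h0 : NZ A (1 : MvPolynomial (Fin β × Fin n) K) := by
      refine ⟨K, inferInstance, inferInstance, P, ?_⟩
      simp [ev]
    obtain ⟨⟨σ, hσ⟩, h7⟩ := N_prod A ((NZ_iff _).2 h0) Finset.univ Φ (fun i _ => ⟨τ i, h4 i⟩)
      (fun i _ => (NZ_iff _).2 (h5 i))
    refine hd _ σ hσ (fun m => ?_) ((NZ_iff _).1 h7)
    obtain ⟨i, hi⟩ := Set.mem_iUnion.1 (h2 ⟨m, rfl⟩)
    unfold ev
    rw [map_prod]
    exact Finset.prod_eq_zero (Finset.mem_univ i) (h6 i _ hi)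
  have hQP : 0 < Q P := by
    refine lt_of_le_of_ne (hQ0 P) (fun h0 => ?_)
    -- the multiples of `P` have bounded height
    have h1 : ∀ m : ℕ, Q (m • P) = 0 ∧ Q ((m + 1) • P) = 0 := by
      intro m
      induction m with
      | zero =>
        have h2 := hQ2 0 0
        rw [add_zero, sub_zero] at h2
        refine ⟨?_, ?_⟩
        · rw [zero_smul]
          linarith
        · rw [zero_add, one_smul]
          exact h0.symm
      | succ m ih =>
        refine ⟨ih.2, ?_⟩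
        have h2 := hQ2 ((m + 1) • P) P
        have h3 : (m + 1) • P + P = (m + 1 + 1) • P := (succ_nsmul P (m + 1)).symm
        have h4 : (m + 1) • P - P = m • P := by
          rw [add_smul, one_smul, add_sub_cancel_right]
        rw [h3, h4, ih.1, ih.2, ← h0] at h2
        linarith
    have h2 : (Set.range (fun m : ℕ => m • P)).Finite := by
      refine (hnorth (∑ b, C b)).subset ?_
      rintro _ ⟨m, rfl⟩
      have h3 := abs_le.1 (hQ1 (m • P))
      rw [(h1 m).1] at h3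
      change ht (m • P) ≤ _
      linarith [h3.1]
    refine hinf ((h2.image (fun R => Q0 + R)).subset ?_)
    rintro _ ⟨m, rfl⟩
    exact ⟨m • P, ⟨m, rfl⟩, rfl⟩
  have hrec : ∀ m : ℕ, Q (Q0 + (m + 2) • P) + Q (Q0 + m • P) =
      2 * Q (Q0 + (m + 1) • P) + 2 * Q P := by
    intro m
    have h1 := hQ2 (Q0 + (m + 1) • P) P
    have h2 : Q0 + (m + 1) • P + P = Q0 + (m + 2) • P := by
      rw [add_assoc, ← succ_nsmul]
    have h3 : Q0 + (m + 1) • P - P = Q0 + m • P := by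
      rw [add_smul, one_smul]
      abel
    rw [h2, h3] at h1
    linarith
  obtain ⟨M, hM⟩ := quad_bounds (fun m => Q (Q0 + m • P)) (fun m => ht (Q0 + m • P)) (Q P)
    (∑ b, C b) hQP hrec (fun m => hQ1 _)
  exact ⟨Q P, M, hQP, hM⟩

/-- **The number of points of an orbit of a translation in sets covered by few hypersurfaces.** -/
theorem orbit_count (A : Fin β → AbV K n) (hdim : 0 < ∑ b, (A b).dim) (P Q0 : Bp A K)
    (hd : ∀ (Φ : MvPolynomial (Fin β × Fin n) K) (δ : Fin β → ℕ), MH δ Φ →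
      (∀ m : ℕ, ev Φ (vc (Q0 + m • P)) = 0) → ¬ NZ A Φ) (E : Set (Bp A K)) (N0 d : ℕ)
    (hE : ∀ T : ℝ, Cov A N0 d {R | R ∈ E ∧ T / 2 ≤ ht R ∧ ht R ≤ T}) :
    ∃ C : ℕ, ∀ N : ℕ, {m | N ≤ m ∧ m ≤ 2 * N ∧ m ∈ {m | Q0 + m • P ∈ E}}.ncard ≤ C := by
  classical
  obtain ⟨a, M, ha, hM⟩ := ht_orbit A hdim P Q0 hd
  choose B hB using fun δ : Fin β → ℕ => orbit_zeros A P Q0 hd δ
  -- a bound for all multidegrees at most `d`
  set Bm : ℕ := ∑ δ : Fin β → Fin (d + 1), B (fun b => (δ b : ℕ)) with hBm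
  have hBm' : ∀ (H : Set (Bp A K)), InHyp A d H → ∀ s : Finset ℕ,
      (∀ m ∈ s, Q0 + m • P ∈ H) → s.card ≤ Bm := by
    rintro H ⟨Φ, τ, h1, h2, h3, h4⟩ s hs
    refine (hB τ Φ h2 h3 s (fun m hm => h4 _ (hs m hm))).trans ?_
    have h5 : B τ = B (fun b => (((fun b => ⟨τ b, Nat.lt_succ_of_le (h1 b)⟩ :
        Fin β → Fin (d + 1)) b : Fin (d + 1)) : ℕ)) := rfl
    rw [h5]
    exact Finset.single_le_sum (f := fun δ : Fin β → Fin (d + 1) => B (fun b => (δ b : ℕ)))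
      (fun _ _ => Nat.zero_le _) (Finset.mem_univ _)
  have hcov : ∀ (S : Set (Bp A K)) (N1 : ℕ), Cov A N1 d S → ∀ s : Finset ℕ,
      (∀ m ∈ s, Q0 + m • P ∈ S) → s.card ≤ N1 * Bm := by
    rintro S N1 ⟨H, h1, h2⟩ s hs
    have h3 : s ⊆ Finset.univ.biUnion (fun i : Fin N1 => s.filter (fun m => Q0 + m • P ∈ H i)) := by
      intro m hm
      obtain ⟨i, hi⟩ := Set.mem_iUnion.1 (h2 (hs m hm))
      exact Finset.mem_biUnion.2 ⟨i, Finset.mem_univ i, Finset.mem_filter.2 ⟨hm, hi⟩⟩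
    refine (Finset.card_le_card h3).trans (Finset.card_biUnion_le.trans ?_)
    refine (Finset.sum_le_card_nsmul _ _ Bm (fun i _ => ?_)).trans ?_
    · exact hBm' (H i) (h1 i) _ (fun m hm => (Finset.mem_filter.1 hm).2)
    · rw [Finset.card_univ, Fintype.card_fin, smul_eq_mul]
  refine ⟨M + 1 + 4 * (N0 * Bm), fun N => ?_⟩
  have hfin : {m | N ≤ m ∧ m ≤ 2 * N ∧ m ∈ {m | Q0 + m • P ∈ E}}.Finite :=
    (Set.finite_le_nat (2 * N)).subset (fun m hm => hm.2.1)
  set s := hfin.toFinset with hs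
  have hs' : ∀ m, m ∈ s ↔ N ≤ m ∧ m ≤ 2 * N ∧ Q0 + m • P ∈ E := by
    intro m
    rw [hs, Set.Finite.mem_toFinset]
    rfl
  rw [Set.ncard_eq_toFinset_card _ hfin]
  let t : ℕ → Finset ℕ := fun i => s.filter (fun m =>
    a * N ^ 2 * 2 ^ i / 2 ≤ ht (Q0 + m • P) ∧ ht (Q0 + m • P) ≤ a * N ^ 2 * 2 ^ i)
  have hsub : s ⊆ s.filter (fun m => m < M) ∪ (Finset.range 4).biUnion t := by
    intro m hm
    rcases lt_or_ge m M with h | h
    · exact Finset.mem_union_left _ (Finset.mem_filter.2 ⟨hm, h⟩)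
    · refine Finset.mem_union_right _ ?_
      obtain ⟨h1, h2⟩ := hM m h
      obtain ⟨h3, h4, -⟩ := (hs' m).1 hm
      have h5 : (N : ℝ) ≤ m := by exact_mod_cast h3
      have h6 : (m : ℝ) ≤ 2 * N := by exact_mod_cast h4
      have h7 : (N : ℝ) ^ 2 ≤ m ^ 2 := pow_le_pow_left₀ (Nat.cast_nonneg _) h5 2
      have h8 : (m : ℝ) ^ 2 ≤ (2 * N) ^ 2 := pow_le_pow_left₀ (Nat.cast_nonneg _) h6 2
      have h9 : a * N ^ 2 / 2 ≤ ht (Q0 + m • P) := by nlinarith
      have h10 : ht (Q0 + m • P) ≤ a * N ^ 2 * 8 := by nlinarith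
      rw [Finset.mem_biUnion]
      rcases le_total (ht (Q0 + m • P)) (a * N ^ 2 * 2 ^ 0) with g1 | g1
      · exact ⟨0, by simp, Finset.mem_filter.2 ⟨hm, by rw [pow_zero, mul_one]; exact h9, g1⟩⟩
      rcases le_total (ht (Q0 + m • P)) (a * N ^ 2 * 2 ^ 1) with g2 | g2
      · refine ⟨1, by simp, Finset.mem_filter.2 ⟨hm, ?_, g2⟩⟩
        rw [pow_zero, mul_one] at g1
        linarith
      rcases le_total (ht (Q0 + m • P)) (a * N ^ 2 * 2 ^ 2) with g3 | g3
      · refine ⟨2, by simp, Finset.mem_filter.2 ⟨hm, ?_, g3⟩⟩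
        linarith
      · refine ⟨3, by simp, Finset.mem_filter.2 ⟨hm, ?_, ?_⟩⟩
        · linarith
        · linarith
  refine (Finset.card_le_card hsub).trans ((Finset.card_union_le _ _).trans ?_)
  refine Nat.add_le_add ?_ ?_
  · have h1 : s.filter (fun m => m < M) ⊆ Finset.range M := fun m hm =>
      Finset.mem_range.2 (Finset.mem_filter.1 hm).2
    have h2 := Finset.card_le_card h1
    rw [Finset.card_range] at h2
    omega
  · refine Finset.card_biUnion_le.trans ?_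
    refine (Finset.sum_le_card_nsmul _ _ (N0 * Bm) (fun i _ => ?_)).trans ?_
    · refine hcov _ N0 (hE (a * N ^ 2 * 2 ^ i)) (t i) (fun m hm => ?_)
      obtain ⟨h1, h2, h3⟩ := Finset.mem_filter.1 hm
      exact ⟨((hs' m).1 h1).2.2, h2, h3⟩
    · rw [Finset.card_range, smul_eq_mul]

end main

end Pool.Agent.J4H27.CY
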