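import Pool.Agent.J4H27.CY.Orb
import Pool.Agent.J4H27.ML.Stb

/-!
# Orbits of translations on products of simple abelian varieties are dense
-/

set_option autoImplicit false
set_option linter.unusedSectionVars false

open MvPolynomial Pool.Agent.TH954.X Pool.Agent.TH954.Z Pool.Agent.TH954.Z.Dns
  Pool.Agent.J4H27.ML

namespace Pool.Agent.J4H27.CY

variable {K : Type} [Field K] {n β : ℕ} {A : Fin β → AbV K n}

/-- orbits of a translation by a point with components of infinite order are dense -/
theorem dense_of_indep (hI : Indep A) (P Q0 : Bp A K) (hP : ∀ b, ∀ m : ℕ, 0 < m → m • P b ≠ 0)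
    (Φ : MvPolynomial (Fin β × Fin n) K) (δ : Fin β → ℕ) (hΦ : MH δ Φ)
    (hz : ∀ m : ℕ, ev Φ (vc (Q0 + m • P)) = 0) : ¬ NZ A Φ := by
  rintro ⟨F1, _, _, R, hR⟩
  let F := AlgebraicClosure F1
  let φ : F1 →ₐ[K] F := IsScalarTower.toAlgHom K F1 F
  let ψ : K →ₐ[K] F := Algebra.ofId K F
  set U : Set (Bp A F) := {x | ∃ m : ℕ, x = mp ψ (m • P)} with hU
  have hZ : Zc (Zc U) ⊆ Zc U := Zc_Zc (le_refl _)
  have hmp : ∀ m : ℕ, mp ψ (m • P) = m • mp ψ P := fun m => map_nsmul (mpH ψ) m P
  have hstab : mp ψ P ∈ Stab (Zc U) hZ := by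
    intro p hp
    refine Zc_mono ?_ (Zc_add hp (mp ψ P))
    rintro _ ⟨_, ⟨m, rfl⟩, rfl⟩
    refine ⟨m + 1, ?_⟩
    beta_reduce
    rw [hmp, hmp, add_smul, one_smul]
  have htop : Stab (Zc U) hZ = ⊤ := by
    refine hI F β (Function.Embedding.refl _) (Stab (Zc U) hZ) (closed_stab (Zc U) hZ)
      (fun j => ?_)
    refine Set.infinite_of_injective_forall_mem (f := fun m : ℕ => (m • mp ψ P) j) ?_ ?_
    · intro a b hab
      beta_reduce at hab
      by_contra hne
      have key : ∀ a b : ℕ, a < b → (a • mp ψ P) j = (b • mp ψ P) j → False := by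
        intro a b hlt hab
        have h1 : ((b - a) • mp ψ P) j = 0 := by
          have h2 : b • mp ψ P = (b - a) • mp ψ P + a • mp ψ P := by
            rw [← add_nsmul]
            congr 1
            omega
          rw [h2, Pi.add_apply] at hab
          exact right_eq_add.1 hab
        refine hP j (b - a) (by omega) ?_
        rw [← hmp] at h1
        have h3 : mp ψ ((b - a) • P) j = mp ψ 0 j := by
          rw [h1]
          have h4 : mp ψ (0 : Bp A K) = 0 := map_zero (mpH ψ)
          rw [h4]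
          rfl
        have h4 : ((b - a) • P) j = (0 : Bp A K) j := by
          refine Subtype.ext (funext fun c => ψ.injective ?_)
          exact congrFun (congrArg Subtype.val h3) c
        exact h4
      rcases lt_or_gt_of_ne hne with h | h
      · exact key a b h hab
      · exact key b a h hab.symm
    · intro m
      exact ⟨m • mp ψ P, (Stab (Zc U) hZ).nsmul_mem hstab m, rfl⟩
  have hall : ∀ x : Bp A F, x ∈ Zc U := by
    intro x
    have h1 : x ∈ Stab (Zc U) hZ := by
      rw [htop]
      trivial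
    have h2 : (0 : Bp A F) ∈ Zc U := by
      refine sub_Zc U ⟨0, ?_⟩
      rw [zero_smul]
      exact (map_zero (mpH ψ)).symm
    have h3 := h1 0 h2
    rwa [zero_add] at h3
  -- the form over `F`
  have hev : ∀ x : Bp A F, ev (MvPolynomial.map (algebraMap K F) Φ) (vc x) = ev Φ (vc x) := by
    intro x
    unfold ev
    rw [aeval_map_algebraMap]
  have hΦF : MH δ (MvPolynomial.map (algebraMap K F) Φ) := by
    intro m hm j
    refine hΦ m ?_ j
    rw [mem_support_iff] at hm ⊢
    intro h0
    apply hm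
    rw [coeff_map, h0, map_zero]
  have h1 := Zc_add (hall (mp φ R - mp ψ Q0)) (mp ψ Q0) (MvPolynomial.map (algebraMap K F) Φ) δ
    hΦF (by
      rintro _ ⟨_, ⟨m, rfl⟩, rfl⟩
      rw [hev]
      have h2 : mp ψ (m • P) + mp ψ Q0 = mp ψ (Q0 + m • P) := by
        rw [add_comm]
        exact (map_add (mpH ψ) Q0 (m • P)).symm
      beta_reduce
      rw [h2]
      have h3 := ev_hom ψ Φ (vc (Q0 + m • P))
      rw [hz m, map_zero] at h3
      exact h3)
  rw [sub_add_cancel, hev] at h1
  have h2 := ev_hom φ Φ (vc R)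
  have h3 : φ (ev Φ (vc R)) = 0 := h2.symm.trans h1
  rw [map_eq_zero] at h3
  exact hR h3

end Pool.Agent.J4H27.CY
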