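import Mathlib

/-!
# Zeros of ultrametrically smooth sequences
-/

set_option autoImplicit false
set_option linter.unusedSectionVars false

open Polynomial

namespace Pool.Agent.J4H27.CY

section basic

variable {K : Type} [Field K] (w : AbsoluteValue K ℝ)

/-- ultrametric inequality -/
def Um : Prop := ∀ x y : K, w (x + y) ≤ max (w x) (w y)

variable {w}

lemma um_sum (hw : Um w) {ι : Type} (s : Finset ι) (f : ι → K) (B : ℝ) (hB : 0 ≤ B)
    (h : ∀ i ∈ s, w (f i) ≤ B) : w (∑ i ∈ s, f i) ≤ B := by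
  classical
  induction s using Finset.induction_on with
  | empty => simpa using hB
  | insert a s ha ih =>
    rw [Finset.sum_insert ha]
    refine (hw _ _).trans (max_le (h a (Finset.mem_insert_self a s)) ?_)
    exact ih (fun i hi => h i (Finset.mem_insert_of_mem hi))

lemma um_sub (hw : Um w) {x y : K} {B : ℝ} (hx : w x ≤ B) (hy : w y ≤ B) : w (x - y) ≤ B := by
  rw [sub_eq_add_neg]
  refine (hw _ _).trans (max_le hx ?_)
  rw [w.map_neg]
  exact hy

lemma um_nat (hw : Um w) (n : ℕ) : w (n : K) ≤ 1 := by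
  induction n with
  | zero => simp
  | succ n ih =>
    rw [Nat.cast_succ]
    refine (hw _ _).trans (max_le ih ?_)
    rw [w.map_one]

lemma um_int (hw : Um w) (n : ℤ) : w (n : K) ≤ 1 := by
  obtain ⟨m, rfl | rfl⟩ := n.eq_nat_or_neg
  · rw [Int.cast_natCast]
    exact um_nat hw _
  · rw [Int.cast_neg, w.map_neg, Int.cast_natCast]
    exact um_nat hw _

end basic

section poly

variable {K : Type} [Field K] [CharZero K] {w : AbsoluteValue K ℝ}

lemma eval_le (hw : Um w) {C θ : ℝ} (hC : 0 ≤ C) (hθ0 : 0 ≤ θ) (hθ1 : θ ≤ 1) (p : K[X])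
    (hp : ∀ i, w (p.coeff i) ≤ C * θ ^ i) (x : K) (hx : w x ≤ 1) : w (p.eval x) ≤ C := by
  rw [eval_eq_sum_range]
  refine um_sum hw _ _ C hC (fun i _ => ?_)
  rw [w.map_mul, w.map_pow]
  have h1 : w (p.coeff i) ≤ C := (hp i).trans (by
    have h2 : θ ^ i ≤ 1 := pow_le_one₀ hθ0 hθ1
    nlinarith)
  have h2 : w x ^ i ≤ 1 := pow_le_one₀ (w.nonneg _) hx
  calc w (p.coeff i) * w x ^ i ≤ C * 1 := mul_le_mul h1 h2 (pow_nonneg (w.nonneg _) _) hC
    _ = C := mul_one C

lemma zeros_poly (hw : Um w) {θ : ℝ} (hθ0 : 0 ≤ θ) (hθ1 : θ ≤ 1) (s : Finset ℕ) :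
    ∀ (C : ℝ), 0 ≤ C → ∀ p : K[X], (∀ i, w (p.coeff i) ≤ C * θ ^ i) →
      (∀ a ∈ s, p.eval (a : K) = 0) → ∀ x : K, w x ≤ 1 → w (p.eval x) ≤ C * θ ^ s.card := by
  classical
  induction s using Finset.induction_on with
  | empty =>
    intro C hC p hp _ x hx
    rw [Finset.card_empty, pow_zero, mul_one]
    exact eval_le hw hC hθ0 hθ1 p hp x hx
  | insert a s ha ih =>
    intro C hC p hp hz x hx
    have h0 : p.IsRoot (a : K) := hz a (Finset.mem_insert_self a s)
    have h1 := mul_divByMonic_eq_iff_isRoot.2 h0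
    set q := p /ₘ (X - Polynomial.C (a : K)) with hq
    have hq1 : ∀ i, w (q.coeff i) ≤ C * θ * θ ^ i := by
      intro i
      rw [hq, coeff_divByMonic_X_sub_C]
      refine um_sum hw _ _ _ (by positivity) (fun l hl => ?_)
      rw [Finset.mem_Icc] at hl
      rw [w.map_mul, w.map_pow]
      have h2 : w (a : K) ^ (l - (i + 1)) ≤ 1 := pow_le_one₀ (w.nonneg _) (um_nat hw a)
      have h3 : θ ^ l ≤ θ * θ ^ i := by
        rw [← pow_succ']
        exact pow_le_pow_of_le_one hθ0 hθ1 hl.1
      calc w (a : K) ^ (l - (i + 1)) * w (p.coeff l) ≤ 1 * (C * θ ^ l) :=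
            mul_le_mul h2 (hp l) (w.nonneg _) zero_le_one
        _ ≤ C * θ * θ ^ i := by
            rw [one_mul, mul_assoc]
            exact mul_le_mul_of_nonneg_left h3 hC
    have hq2 : ∀ b ∈ s, q.eval (b : K) = 0 := by
      intro b hb
      have h2 := hz b (Finset.mem_insert_of_mem hb)
      rw [← h1, eval_mul, mul_eq_zero] at h2
      refine h2.resolve_left (fun h3 => ?_)
      rw [eval_sub, eval_X, eval_C, sub_eq_zero] at h3
      have h4 : b = a := by exact_mod_cast h3
      exact ha (h4 ▸ hb)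
    have h2 := ih (C * θ) (by positivity) q hq1 hq2 x hx
    rw [← h1, eval_mul, w.map_mul, Finset.card_insert_of_notMem ha, pow_succ]
    have h3 : w ((X - Polynomial.C (a : K)).eval x) ≤ 1 := by
      rw [eval_sub, eval_X, eval_C]
      exact um_sub hw hx (um_nat hw a)
    calc w ((X - Polynomial.C (a : K)).eval x) * w (q.eval x) ≤ 1 * (C * θ * θ ^ s.card) :=
          mul_le_mul h3 h2 (w.nonneg _) zero_le_one
      _ = C * (θ ^ s.card * θ) := by ring

open fwdDiff in
/-- a smooth sequence with many zeros is small -/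
lemma zeros_seq (hw : Um w) {C θ : ℝ} (hC : 0 ≤ C) (hθ0 : 0 ≤ θ) (hθ1 : θ ≤ 1) (f : ℕ → K)
    (hf : ∀ j, w ((fwdDiff 1)^[j] f 0) ≤ C * θ ^ j * w (j.factorial : K)) (s : Finset ℕ)
    (hs : ∀ a ∈ s, f a = 0) (n : ℕ) : w (f n) ≤ C * θ ^ s.card := by
  classical
  set I := max (s.sup id) n + 1 with hI
  let p : K[X] := ∑ j ∈ Finset.range I,
    Polynomial.C ((fwdDiff 1)^[j] f 0 / (j.factorial : K)) * descPochhammer K j
  have hpe : ∀ a : ℕ, a < I → p.eval (a : K) = f a := by
    intro a ha
    have h1 := shift_eq_sum_fwdDiff_iter (1 : ℕ) f a 0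
    rw [zero_add, smul_eq_mul, mul_one] at h1
    rw [h1]
    simp only [p, eval_finsetSum, eval_mul, eval_C]
    have h2 : Finset.range (a + 1) ⊆ Finset.range I := Finset.range_subset_range.2 (by omega)
    rw [← Finset.sum_subset h2]
    · refine Finset.sum_congr rfl (fun j _ => ?_)
      rw [descPochhammer_eval_eq_descFactorial, Nat.descFactorial_eq_factorial_mul_choose]
      have h3 : (j.factorial : K) ≠ 0 := by exact_mod_cast j.factorial_ne_zero
      rw [nsmul_eq_mul]
      push_cast
      field_simp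
    · intro j _ hj
      rw [Finset.mem_range, not_lt] at hj
      rw [descPochhammer_eval_eq_descFactorial, Nat.descFactorial_eq_zero_iff_lt.2 (by omega)]
      simp
  have hpc : ∀ i, w (p.coeff i) ≤ C * θ ^ i := by
    intro i
    simp only [p, finsetSum_coeff]
    refine um_sum hw _ _ _ (by positivity) (fun j _ => ?_)
    rw [coeff_C_mul, w.map_mul]
    have h1 : w ((descPochhammer K j).coeff i) ≤ 1 := by
      rw [← descPochhammer_map (Int.castRingHom K) j, coeff_map]
      exact um_int hw _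
    have h3 : w (j.factorial : K) ≠ 0 := by
      rw [w.ne_zero_iff]
      exact_mod_cast j.factorial_ne_zero
    have h4 : 0 < w (j.factorial : K) := lt_of_le_of_ne (w.nonneg _) (Ne.symm h3)
    rcases le_or_gt i j with hij | hij
    · have h2 : w ((fwdDiff 1)^[j] f 0 / (j.factorial : K)) ≤ C * θ ^ j := by
        rw [map_div₀, div_le_iff₀ h4]
        exact hf j
      have h5 : θ ^ j ≤ θ ^ i := pow_le_pow_of_le_one hθ0 hθ1 hij
      calc w ((fwdDiff 1)^[j] f 0 / (j.factorial : K)) * w ((descPochhammer K j).coeff i) ≤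
            (C * θ ^ j) * 1 := mul_le_mul h2 h1 (w.nonneg _) (by positivity)
        _ ≤ C * θ ^ i := by
            rw [mul_one]
            exact mul_le_mul_of_nonneg_left h5 hC
    · have h5 : (descPochhammer K j).coeff i = 0 := by
        refine coeff_eq_zero_of_natDegree_lt ?_
        rw [descPochhammer_natDegree]
        exact hij
      rw [h5, w.map_zero, mul_zero]
      positivity
  have h1 := zeros_poly hw hθ0 hθ1 s C hC p hpc (fun a ha => by
    rw [hpe a (by
      have h2 : a ≤ s.sup id := Finset.le_sup (f := id) ha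
      omega)]
    exact hs a ha) (n : K) (um_nat hw n)
  rwa [hpe n (by omega)] at h1

end poly

section uniform

variable {K : Type} [Field K] [CharZero K] {w : AbsoluteValue K ℝ}

open fwdDiff in
/-- a uniform bound for the number of zeros -/
theorem uniform (hw : Um w) {θ : ℝ} (hθ0 : 0 ≤ θ) (hθ1 : θ < 1) (V : Type) [AddCommGroup V]
    [Module K V] [FiniteDimensional K V] (e : ℕ → Module.Dual K V)
    (he : ∀ v : V, ∃ C : ℝ, 0 ≤ C ∧ ∀ j,
      w ((fwdDiff 1)^[j] (fun n => e n v) 0) ≤ C * θ ^ j * w (j.factorial : K)) :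
    ∃ B : ℕ, ∀ v : V, (∃ n, e n v ≠ 0) → ∀ s : Finset ℕ, (∀ a ∈ s, e a v = 0) → s.card ≤ B := by
  classical
  -- the differences as functionals
  let c : ℕ → Module.Dual K V := fun j => ∑ k ∈ Finset.range (j + 1),
    ((-1) ^ (j - k) * (j.choose k : ℤ) : ℤ) • e k
  have hc : ∀ j v, c j v = (fwdDiff 1)^[j] (fun n => e n v) 0 := by
    intro j v
    rw [fwdDiff_iter_eq_sum_shift]
    simp only [c, LinearMap.sum_apply, LinearMap.smul_apply, zero_add, smul_eq_mul, mul_one]
  -- a finite basis of their span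
  obtain ⟨J, hJ1, hJ2, hJ3⟩ := exists_linearIndependent K (Set.range c)
  have hJfin : J.Finite := hJ3.setFinite
  choose! j0 hj0 using fun x (hx : x ∈ J) => hJ1 hx
  have : Fintype J := hJfin.fintype
  -- dual vectors
  have hsurj : Function.Surjective (LinearMap.pi (fun x : J => (x : Module.Dual K V))) := by
    rw [← LinearMap.range_eq_top]
    by_contra hne
    obtain ⟨φ, hφ, hφ2⟩ := Submodule.exists_le_ker_of_lt_top _ (lt_top_iff_ne_top.2 hne)
    apply hφ
    have h1 : ∑ x : J, φ (Pi.single x 1) • (x : Module.Dual K V) = 0 := by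
      ext v
      rw [LinearMap.sum_apply]
      have h2 : φ (LinearMap.pi (fun x : J => (x : Module.Dual K V)) v) = 0 := by
        exact hφ2 ⟨v, rfl⟩
      rw [LinearMap.pi_apply_eq_sum_univ φ] at h2
      rw [LinearMap.zero_apply, ← h2]
      refine Finset.sum_congr rfl (fun x _ => ?_)
      have h3 : (fun j => if x = j then (1 : K) else 0) = Pi.single x 1 := by
        funext j
        rw [Pi.single_apply]
        exact if_congr eq_comm rfl rfl
      rw [LinearMap.smul_apply, smul_eq_mul, smul_eq_mul, mul_comm, h3]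
      rfl
    have h3 := Fintype.linearIndependent_iff.1 hJ3 (fun x => φ (Pi.single x 1)) h1
    refine LinearMap.pi_ext' (fun x => LinearMap.ext_ring ?_)
    exact h3 x
  choose d hd using fun x : J => hsurj (Pi.single x 1)
  have hd' : ∀ x y : J, (x : Module.Dual K V) (d y) = if x = y then 1 else 0 := by
    intro x y
    have h1 := congrFun (hd y) x
    rw [Pi.single_apply] at h1
    exact h1
  choose C hC0 hC using fun x : J => he (d x)
  set C1 : ℝ := ∑ x, C x with hC1
  have hC1' : ∀ x, C x ≤ C1 := fun x =>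
    Finset.single_le_sum (f := C) (fun y _ => hC0 y) (Finset.mem_univ x)
  have hC10 : 0 ≤ C1 := Finset.sum_nonneg fun x _ => hC0 x
  -- expansions
  have hexp : ∀ v l, c l v = ∑ x : J, (x : Module.Dual K V) v * c l (d x) := by
    intro v l
    set v' := v - ∑ x : J, ((x : Module.Dual K V) v) • d x with hv'
    have h1 : ∀ y ∈ J, y v' = 0 := by
      intro y hy
      rw [hv', map_sub, map_sum, sub_eq_zero]
      have h2 : ∀ x : J, y (((x : Module.Dual K V) v) • d x) =
          if (⟨y, hy⟩ : J) = x then (x : Module.Dual K V) v else 0 := by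
        intro x
        rw [map_smul, smul_eq_mul]
        have h3 := hd' ⟨y, hy⟩ x
        change y (d x) = _ at h3
        rw [h3]
        split_ifs <;> simp
      rw [Finset.sum_congr rfl fun x _ => h2 x, Finset.sum_ite_eq]
      simp
    have h2 : c l v' = 0 := by
      have h3 : c l ∈ Submodule.span K J := by
        rw [hJ2]
        exact Submodule.subset_span ⟨l, rfl⟩
      have h4 : Submodule.span K J ≤ LinearMap.ker (Module.Dual.eval K V v') :=
        Submodule.span_le.2 (fun y hy => h1 y hy)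
      exact h4 h3
    rw [hv', map_sub, map_sum, sub_eq_zero] at h2
    rw [h2]
    refine Finset.sum_congr rfl (fun x _ => ?_)
    rw [map_smul, smul_eq_mul]
  -- choice of the bound
  obtain ⟨B, hB⟩ := exists_pow_lt_of_lt_one (x := 1 / (C1 + 1)) (by positivity) hθ1
  refine ⟨B, fun v hv s hs => ?_⟩
  by_contra hcard
  push Not at hcard
  have hJne : Nonempty J := by
    by_contra hJe
    rw [not_nonempty_iff] at hJe
    obtain ⟨n, hn⟩ := hv
    apply hn
    have h1 := shift_eq_sum_fwdDiff_iter (1 : ℕ) (fun n => e n v) n 0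
    rw [zero_add, smul_eq_mul, mul_one] at h1
    rw [h1]
    refine Finset.sum_eq_zero (fun k _ => ?_)
    rw [← hc, hexp, Finset.univ_eq_empty, Finset.sum_empty, smul_zero]
  obtain ⟨x0, hx0⟩ := Finite.exists_max (fun x : J => w ((x : Module.Dual K V) v))
  set m : ℝ := w ((x0 : Module.Dual K V) v) with hm
  have hm0 : 0 ≤ m := w.nonneg _
  have hmx : ∀ x : J, w ((x : Module.Dual K V) v) ≤ m := hx0
  have hmpos : m ≠ 0 := by
    intro h0
    obtain ⟨n, hn⟩ := hv
    apply hn
    have h1 := shift_eq_sum_fwdDiff_iter (1 : ℕ) (fun n => e n v) n 0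
    rw [zero_add, smul_eq_mul, mul_one] at h1
    rw [h1]
    refine Finset.sum_eq_zero (fun k _ => ?_)
    have h2 : ∀ x : J, (x : Module.Dual K V) v = 0 := fun x =>
      (w.eq_zero).1 (le_antisymm ((hmx x).trans h0.le) (w.nonneg _))
    rw [← hc, hexp, Finset.sum_eq_zero, smul_zero]
    intro x _
    rw [h2 x, zero_mul]
  -- smoothness with the constant `m * C1`
  have h1 : ∀ j, w ((fwdDiff 1)^[j] (fun n => e n v) 0) ≤ (m * C1) * θ ^ j *
      w (j.factorial : K) := by
    intro j
    rw [← hc, hexp]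
    refine um_sum hw _ _ _ (by have := w.nonneg (j.factorial : K); positivity) (fun x _ => ?_)
    rw [w.map_mul]
    have h2 := hC x j
    rw [← hc] at h2
    calc w ((x : Module.Dual K V) v) * w (c j (d x)) ≤
          m * (C x * θ ^ j * w (j.factorial : K)) :=
            mul_le_mul (hmx x) h2 (w.nonneg _) hm0
      _ ≤ m * (C1 * θ ^ j * w (j.factorial : K)) := by
            refine mul_le_mul_of_nonneg_left ?_ hm0
            refine mul_le_mul_of_nonneg_right ?_ (w.nonneg _)
            exact mul_le_mul_of_nonneg_right (hC1' x) (by positivity)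
      _ = _ := by ring
  have h2 := zeros_seq hw (mul_nonneg hm0 hC10) hθ0 hθ1.le (fun n => e n v) h1 s hs
  -- all differences are small
  have h3 : ∀ j, w (c j v) ≤ m * C1 * θ ^ s.card := by
    intro j
    simp only [c, LinearMap.sum_apply, LinearMap.smul_apply]
    refine um_sum hw _ _ _ (by positivity) (fun k _ => ?_)
    rw [zsmul_eq_mul, w.map_mul]
    calc w ((((-1) ^ (j - k) * (j.choose k : ℤ) : ℤ) : K)) * w (e k v) ≤
          1 * (m * C1 * θ ^ s.card) := mul_le_mul (um_int hw _) (h2 k) (w.nonneg _) zero_le_one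
      _ = _ := one_mul _
  have h4 : m ≤ m * C1 * θ ^ s.card := by
    have h5 := h3 (j0 x0)
    rw [hj0 x0 x0.2] at h5
    exact h5
  have h5 : θ ^ s.card ≤ θ ^ B := pow_le_pow_of_le_one hθ0 hθ1.le hcard.le
  have h6 : C1 * θ ^ s.card < 1 := by
    have h7 : C1 * θ ^ s.card ≤ C1 * (1 / (C1 + 1)) :=
      mul_le_mul_of_nonneg_left (h5.trans hB.le) hC10
    have h8 : C1 * (1 / (C1 + 1)) < 1 := by
      rw [mul_one_div, div_lt_one (by linarith)]
      linarith
    exact h7.trans_lt h8
  have h7 : 0 < m := lt_of_le_of_ne hm0 (Ne.symm hmpos)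
  nlinarith

end uniform

end Pool.Agent.J4H27.CY
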