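import Pool.Agent.J4H27.CY.Fd

/-!
# Places of a number field with prescribed units; the pigeonhole principle modulo small elements
-/

set_option autoImplicit false
set_option linter.unusedSectionVars false

open NumberField IsDedekindDomain

namespace Pool.Agent.J4H27.CY

section nat

variable {K : Type} [Field K] {w : AbsoluteValue K ℝ}

lemma w_coprime (hw : Um w) {p m : ℕ} (hp : w (p : K) < 1) (h : Nat.Coprime p m) :
    w (m : K) = 1 := by
  refine le_antisymm (um_nat hw m) ?_
  by_contra hlt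
  push Not at hlt
  have h1 := Nat.gcd_eq_gcd_ab p m
  rw [Nat.Coprime.gcd_eq_one h] at h1
  have h2 : (1 : K) = (p : K) * (Nat.gcdA p m : K) + (m : K) * (Nat.gcdB p m : K) := by
    exact_mod_cast congrArg (Int.cast : ℤ → K) h1
  have h3 : w (1 : K) < 1 := by
    rw [h2]
    refine (hw _ _).trans_lt (max_lt ?_ ?_)
    · rw [w.map_mul]
      calc w (p : K) * w (Nat.gcdA p m : K) ≤ w (p : K) * 1 :=
            mul_le_mul_of_nonneg_left (um_int hw _) (w.nonneg _)
        _ < 1 := by rw [mul_one]; exact hp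
    · rw [w.map_mul]
      calc w (m : K) * w (Nat.gcdB p m : K) ≤ w (m : K) * 1 :=
            mul_le_mul_of_nonneg_left (um_int hw _) (w.nonneg _)
        _ < 1 := by rw [mul_one]; exact hlt
  rw [w.map_one] at h3
  exact lt_irrefl _ h3

lemma fac_ge (hw : Um w) {p : ℕ} (hp : p.Prime) (h : w (p : K) < 1) (j : ℕ) :
    w (p : K) ^ j ≤ w (j.factorial : K) := by
  have : Fact p.Prime := ⟨hp⟩
  set v := padicValNat p j.factorial with hv
  obtain ⟨m, hm⟩ : p ^ v ∣ j.factorial := pow_padicValNat_dvd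
  have h1 : ¬ p ∣ m := by
    intro hd
    have h2 : p ^ (v + 1) ∣ j.factorial := by
      rw [hm, pow_succ]
      exact Nat.mul_dvd_mul_left _ hd
    exact pow_succ_padicValNat_not_dvd j.factorial_ne_zero h2
  have h2 : w (m : K) = 1 := w_coprime hw h ((Nat.Prime.coprime_iff_not_dvd hp).2 h1)
  have h3 : v ≤ j := by
    have h4 := sub_one_mul_padicValNat_factorial (p := p) j
    have h5 : 1 ≤ p - 1 := by have := hp.two_le; omega
    have h6 : v ≤ (p - 1) * v := Nat.le_mul_of_pos_left _ h5
    rw [← hv] at h4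
    omega
  rw [hm, Nat.cast_mul, Nat.cast_pow, w.map_mul, w.map_pow, h2, mul_one]
  exact pow_le_pow_of_le_one (w.nonneg _) h.le h3

end nat

section places

variable {K : Type} [Field K] [NumberField K]

lemma um_place (v : FinitePlace K) : Um v.val := fun x y => FinitePlace.add_le v x y

lemma exists_prime_lt (v : FinitePlace K) : ∃ p : ℕ, p.Prime ∧ v.val (p : K) < 1 := by
  obtain ⟨m, hm0, hm⟩ : ∃ m : ℕ, m ≠ 0 ∧ v.val (m : K) < 1 := by
    refine ⟨Ideal.absNorm v.maximalIdeal.asIdeal, ?_, ?_⟩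
    · rw [Ne, Ideal.absNorm_eq_zero_iff]
      exact v.maximalIdeal.ne_bot
    · have h1 : ((Ideal.absNorm v.maximalIdeal.asIdeal : ℕ) : 𝓞 K) ∈ v.maximalIdeal.asIdeal :=
        Ideal.absNorm_mem _
      have h2 := (FinitePlace.norm_lt_one_iff_mem K v.maximalIdeal _).2 h1
      rw [FinitePlace.norm_embedding_eq] at h2
      have h3 : (algebraMap (𝓞 K) K) ((Ideal.absNorm v.maximalIdeal.asIdeal : ℕ) : 𝓞 K) =
          ((Ideal.absNorm v.maximalIdeal.asIdeal : ℕ) : K) := map_natCast _ _
      rw [h3] at h2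
      exact h2
  by_contra hno
  push Not at hno
  have h1 : ∀ m : ℕ, m ≠ 0 → v.val (m : K) = 1 := by
    intro m
    induction m using Nat.recOnMul with
    | zero => intro h; exact absurd rfl h
    | one => intro _; rw [Nat.cast_one, v.val.map_one]
    | prime p hp =>
      intro _
      exact le_antisymm (um_nat (um_place v) p) (hno p hp)
    | mul a b ha hb =>
      intro h
      rw [Nat.cast_mul, v.val.map_mul, ha (fun h0 => h (by rw [h0, zero_mul])),
        hb (fun h0 => h (by rw [h0, mul_zero])), one_mul]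
  rw [h1 m hm0] at hm
  exact lt_irrefl _ hm

lemma inf_places : Infinite (FinitePlace K) := by
  by_contra hfin
  rw [not_infinite_iff_finite] at hfin
  have := Fintype.ofFinite (FinitePlace K)
  choose p hp hp' using fun v : FinitePlace K => exists_prime_lt v
  obtain ⟨q, hq1, hq2⟩ := Nat.exists_infinite_primes ((Finset.univ.sup p) + 1)
  -- a place above `q`
  have h1 : ¬ IsUnit (q : 𝓞 K) := by
    intro hu
    have h2 := (hu.map (Algebra.norm ℤ))
    have h3 : Algebra.norm ℤ ((q : ℕ) : 𝓞 K) = (q : ℤ) ^ Module.finrank ℤ (𝓞 K) := by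
      have := Algebra.norm_algebraMap (S := 𝓞 K) (q : ℤ)
      rw [← this]
      congr 1
      simp
    rw [h3] at h2
    have h4 : 0 < Module.finrank ℤ (𝓞 K) := by
      rw [RingOfIntegers.rank]
      exact Module.finrank_pos
    rw [isUnit_pow_iff h4.ne', Int.isUnit_iff] at h2
    have h5 := hq2.two_le
    omega
  obtain ⟨M, hM, hM2⟩ := exists_max_ideal_of_mem_nonunits h1
  have hMb : M ≠ ⊥ := by
    intro h0
    rw [h0, Ideal.mem_bot] at hM2
    have : (q : 𝓞 K) ≠ 0 := by exact_mod_cast hq2.ne_zero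
    exact this hM2
  let v : HeightOneSpectrum (𝓞 K) := ⟨M, hM.isPrime, hMb⟩
  have h2 : (FinitePlace.mk v).val (q : K) < 1 := by
    have h3 := (FinitePlace.norm_lt_one_iff_mem K v (q : 𝓞 K)).2 hM2
    rw [map_natCast (algebraMap (𝓞 K) K)] at h3
    exact h3
  have h3 := hp' (FinitePlace.mk v)
  have h4 : p (FinitePlace.mk v) ≤ Finset.univ.sup p := Finset.le_sup (Finset.mem_univ _)
  have h5 : Nat.Coprime (p (FinitePlace.mk v)) q := by
    rw [Nat.coprime_primes (hp _) hq2]
    omega
  have h6 := w_coprime (um_place _) h3 h5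
  rw [h6] at h2
  exact lt_irrefl _ h2

/-- there is a finite place at which given nonzero elements are units -/
theorem exists_place (S : Finset K) (hS : (0 : K) ∉ S) :
    ∃ v : FinitePlace K, ∀ a ∈ S, v.val a = 1 := by
  classical
  have h1 : (⋃ a ∈ S, {v : FinitePlace K | v a ≠ 1}).Finite := by
    refine Set.Finite.biUnion S.finite_toSet (fun a ha => ?_)
    have h2 : a ≠ 0 := fun h0 => hS (h0 ▸ ha)
    exact FinitePlace.hasFiniteMulSupport h2
  have := inf_places (K := K)
  obtain ⟨v, hv⟩ := h1.infinite_compl.nonempty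
  refine ⟨v, fun a ha => ?_⟩
  by_contra hne
  exact hv (Set.mem_biUnion ha hne)

/-- finitely many residues -/
theorem fin_res (v : FinitePlace K) (ε : ℝ) (hε : 0 < ε) :
    ∃ R : Set K, R.Finite ∧ ∀ a : K, v.val a ≤ 1 → ∃ r ∈ R, v.val (a - r) < ε := by
  classical
  obtain ⟨p, hp, hp1⟩ := exists_prime_lt v
  obtain ⟨k, hk⟩ := exists_pow_lt_of_lt_one hε hp1
  have hpk : ((p : 𝓞 K) ^ k) ≠ 0 := pow_ne_zero _ (by exact_mod_cast hp.ne_zero)
  let I : Ideal (𝓞 K) := Ideal.span {(p : 𝓞 K) ^ k}
  have hI : I ≠ ⊥ := by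
    rw [Ne, Ideal.span_singleton_eq_bot]
    exact hpk
  have : Finite (𝓞 K ⧸ I) := Ideal.finiteQuotientOfFreeOfNeBot I hI
  refine ⟨Set.range (fun x : 𝓞 K ⧸ I => algebraMap (𝓞 K) K (Quotient.out x)),
    Set.finite_range _, fun a ha => ?_⟩
  set P := v.maximalIdeal with hP
  have hval : ∀ x : K, v.val x = HeightOneSpectrum.adicAbv K P x := by
    intro x
    rw [← FinitePlace.norm_embedding, FinitePlace.norm_embedding_eq]
    rfl
  have ha' : P.valuation K a ≤ 1 := by
    rw [hval] at ha
    by_contra hlt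
    push Not at hlt
    have h1 : (1 : ℝ) < HeightOneSpectrum.adicAbv K P a := by
      rw [HeightOneSpectrum.adicAbv_def]
      have h2 := (WithZeroMulInt.toNNReal_strictMono
        (HeightOneSpectrum.one_lt_absNorm_nnreal P)) hlt
      rw [map_one] at h2
      exact_mod_cast h2
    linarith
  have hpk' : P.valuation K ((p : K) ^ k) ≠ 0 := by
    rw [Ne, Valuation.zero_iff]
    exact pow_ne_zero _ (by exact_mod_cast hp.ne_zero)
  obtain ⟨b, hb⟩ := P.exists_valuation_sub_lt_of_integer ha' (Units.mk0 _ hpk')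
  rw [Units.val_mk0] at hb
  have hb' : v.val (algebraMap (𝓞 K) K b - a) < v.val ((p : K) ^ k) := by
    rw [hval, hval, HeightOneSpectrum.adicAbv_def, HeightOneSpectrum.adicAbv_def]
    exact_mod_cast (WithZeroMulInt.toNNReal_strictMono
        (HeightOneSpectrum.one_lt_absNorm_nnreal P)) hb
  refine ⟨_, ⟨Ideal.Quotient.mk I b, rfl⟩, ?_⟩
  have h1 : Ideal.Quotient.mk I (Quotient.out (Ideal.Quotient.mk I b)) = Ideal.Quotient.mk I b :=
    Quotient.out_eq' _
  rw [Ideal.Quotient.eq, Ideal.mem_span_singleton] at h1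
  obtain ⟨c, hc⟩ := h1
  have h2 : a - algebraMap (𝓞 K) K (Quotient.out (Ideal.Quotient.mk I b)) =
      -(algebraMap (𝓞 K) K b - a) + -((p : K) ^ k * algebraMap (𝓞 K) K c) := by
    have h3 := congrArg (algebraMap (𝓞 K) K) hc
    rw [map_sub, map_mul, map_pow, map_natCast] at h3
    linear_combination -h3
  beta_reduce
  rw [h2]
  refine (um_place v _ _).trans_lt (max_lt ?_ ?_)
  · rw [v.val.map_neg]
    refine hb'.trans ?_
    rw [v.val.map_pow]
    exact hk
  · rw [v.val.map_neg, v.val.map_mul, v.val.map_pow]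
    have h4 : v.val (algebraMap (𝓞 K) K c) ≤ 1 := by
      have h5 := FinitePlace.norm_le_one K P c
      rw [FinitePlace.norm_embedding_eq] at h5
      exact h5
    calc v.val (p : K) ^ k * v.val (algebraMap (𝓞 K) K c) ≤ v.val (p : K) ^ k * 1 :=
          mul_le_mul_of_nonneg_left h4 (pow_nonneg (v.val.nonneg _) _)
      _ < ε := by rw [mul_one]; exact hk

/-- pigeonhole for sequences of integral vectors -/
theorem pigeon (v : FinitePlace K) {ε : ℝ} (hε : 0 < ε) {ι : Type} [Finite ι]
    (x : ℕ → ι → K) (hx : ∀ m c, v.val (x m c) ≤ 1) :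
    ∃ m m' : ℕ, m < m' ∧ ∀ c, v.val (x m' c - x m c) < ε := by
  classical
  obtain ⟨R, hR, hR'⟩ := fin_res v ε hε
  choose r hr hr' using fun m c => hR' (x m c) (hx m c)
  have : Finite R := hR
  let g : ℕ → ι → R := fun m c => ⟨r m c, hr m c⟩
  obtain ⟨m, m', hne, heq⟩ := Finite.exists_ne_map_eq_of_infinite g
  have key : ∀ a b : ℕ, g a = g b → ∀ c, v.val (x b c - x a c) < ε := by
    intro a b hab c
    have h1 : r a c = r b c := congrArg Subtype.val (congrFun hab c)
    have h2 : x b c - x a c = (x b c - r b c) + -(x a c - r a c) := by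
      rw [h1]
      ring
    rw [h2]
    refine (um_place v _ _).trans_lt (max_lt (hr' b c) ?_)
    rw [v.val.map_neg]
    exact hr' a c
  rcases lt_or_gt_of_ne hne with h | h
  · exact ⟨m, m', h, key m m' heq⟩
  · exact ⟨m', m, h, key m' m heq.symm⟩

end places

end Pool.Agent.J4H27.CY
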