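import Pool.Agent.J4H27.CY.Sm
import Pool.Agent.J4H27.CY.Pl
import Pool.Agent.J4H27.ML.Pts
import Pool.Agent.TH954.X.ParR

/-!
# Points of an abelian variety near the origin at a nonarchimedean place
-/

set_option autoImplicit false
set_option linter.unusedSectionVars false

open MvPolynomial Pool.Agent.TH954.X

namespace Pool.Agent.J4H27.CY

section cong

variable {K : Type} [Field K] {w : AbsoluteValue K ℝ}

lemma prod_le_one' {ι : Type} (s : Finset ι) (a : ι → K) (ha : ∀ i ∈ s, w (a i) ≤ 1) :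
    w (∏ i ∈ s, a i) ≤ 1 := by
  rw [map_prod]
  exact Finset.prod_le_one (fun i _ => w.nonneg _) ha

lemma prod_cong (hw : Um w) {ρ : ℝ} (hρ : 0 ≤ ρ) {ι : Type} (s : Finset ι) (a b : ι → K)
    (ha : ∀ i ∈ s, w (a i) ≤ 1) (hb : ∀ i ∈ s, w (b i) ≤ 1) (h : ∀ i ∈ s, w (a i - b i) ≤ ρ) :
    w (∏ i ∈ s, a i - ∏ i ∈ s, b i) ≤ ρ := by
  classical
  induction s using Finset.induction_on with
  | empty => simpa using hρ
  | insert i s hi ih =>
    rw [Finset.prod_insert hi, Finset.prod_insert hi]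
    have h1 : a i * ∏ j ∈ s, a j - b i * ∏ j ∈ s, b j =
        a i * (∏ j ∈ s, a j - ∏ j ∈ s, b j) + (a i - b i) * ∏ j ∈ s, b j := by ring
    rw [h1]
    have h2 := ih (fun j hj => ha j (Finset.mem_insert_of_mem hj))
      (fun j hj => hb j (Finset.mem_insert_of_mem hj))
      (fun j hj => h j (Finset.mem_insert_of_mem hj))
    refine (hw _ _).trans (max_le ?_ ?_)
    · rw [w.map_mul]
      calc w (a i) * w (∏ j ∈ s, a j - ∏ j ∈ s, b j) ≤ 1 * ρ :=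
            mul_le_mul (ha i (Finset.mem_insert_self i s)) h2 (w.nonneg _) zero_le_one
        _ = ρ := one_mul _
    · rw [w.map_mul]
      calc w (a i - b i) * w (∏ j ∈ s, b j) ≤ ρ * 1 :=
            mul_le_mul (h i (Finset.mem_insert_self i s))
              (prod_le_one' s b (fun j hj => hb j (Finset.mem_insert_of_mem hj)))
              (w.nonneg _) hρ
        _ = ρ := mul_one _

lemma pow_cong' (hw : Um w) {ρ : ℝ} (hρ : 0 ≤ ρ) {a b : K} (ha : w a ≤ 1) (hb : w b ≤ 1)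
    (h : w (a - b) ≤ ρ) (k : ℕ) : w (a ^ k - b ^ k) ≤ ρ := by
  have h1 := prod_cong hw hρ (Finset.range k) (fun _ => a) (fun _ => b) (fun _ _ => ha)
    (fun _ _ => hb) (fun _ _ => h)
  simpa using h1

lemma mon_le {ι : Type} (s : Finset ι) (m : ι → ℕ) (a : ι → K) (ha : ∀ i, w (a i) ≤ 1) :
    w (∏ i ∈ s, a i ^ m i) ≤ 1 :=
  prod_le_one' s _ (fun i _ => by
    rw [w.map_pow]
    exact pow_le_one₀ (w.nonneg _) (ha i))

lemma mon_cong (hw : Um w) {ρ : ℝ} (hρ : 0 ≤ ρ) {ι : Type} (s : Finset ι) (m : ι → ℕ)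
    (a b : ι → K) (ha : ∀ i, w (a i) ≤ 1) (hb : ∀ i, w (b i) ≤ 1)
    (h : ∀ i, w (a i - b i) ≤ ρ) : w (∏ i ∈ s, a i ^ m i - ∏ i ∈ s, b i ^ m i) ≤ ρ :=
  prod_cong hw hρ s _ _ (fun i _ => by
    rw [w.map_pow]
    exact pow_le_one₀ (w.nonneg _) (ha i)) (fun i _ => by
    rw [w.map_pow]
    exact pow_le_one₀ (w.nonneg _) (hb i)) (fun i _ => pow_cong' hw hρ (ha i) (hb i) (h i) _)

variable {n : ℕ}

lemma ev2 (F : MvPolynomial (Fin 2 × Fin n) K) (a b : Fin n → K) :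
    ev F ![a, b] = ∑ m ∈ F.support, coeff m F *
      ((∏ c, a c ^ m (0, c)) * ∏ c, b c ^ m (1, c)) := by
  unfold ev
  rw [aeval_def, eval₂_eq']
  refine Finset.sum_congr rfl (fun m _ => ?_)
  rw [Fintype.prod_prod_type, Fin.prod_univ_two]
  rfl

lemma ev2_cong (hw : Um w) {ρ : ℝ} (hρ : 0 ≤ ρ) (F : MvPolynomial (Fin 2 × Fin n) K)
    (hF : ∀ m, w (coeff m F) ≤ 1) {a b a' b' : Fin n → K} (ha : ∀ c, w (a c) ≤ 1)
    (hb : ∀ c, w (b c) ≤ 1) (ha' : ∀ c, w (a' c) ≤ 1) (hb' : ∀ c, w (b' c) ≤ 1)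
    (h : ∀ c, w (a c - a' c) ≤ ρ) (h' : ∀ c, w (b c - b' c) ≤ ρ) :
    w (ev F ![a, b] - ev F ![a', b']) ≤ ρ := by
  rw [ev2, ev2, ← Finset.sum_sub_distrib]
  refine um_sum hw _ _ _ hρ (fun m _ => ?_)
  rw [← mul_sub, w.map_mul]
  have h1 : w ((∏ c, a c ^ m (0, c)) * (∏ c, b c ^ m (1, c)) -
      (∏ c, a' c ^ m (0, c)) * ∏ c, b' c ^ m (1, c)) ≤ ρ := by
    have h2 : (∏ c, a c ^ m (0, c)) * (∏ c, b c ^ m (1, c)) -
      (∏ c, a' c ^ m (0, c)) * (∏ c, b' c ^ m (1, c)) =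
      (∏ c, a c ^ m (0, c)) * ((∏ c, b c ^ m (1, c)) - ∏ c, b' c ^ m (1, c)) +
      ((∏ c, a c ^ m (0, c)) - ∏ c, a' c ^ m (0, c)) * ∏ c, b' c ^ m (1, c) := by ring
    rw [h2]
    refine (hw _ _).trans (max_le ?_ ?_)
    · rw [w.map_mul]
      calc _ ≤ 1 * ρ := mul_le_mul (mon_le Finset.univ (fun c => m (0, c)) a ha)
            (mon_cong hw hρ Finset.univ (fun c => m (1, c)) b b' hb hb' h') (w.nonneg _)
            zero_le_one
        _ = ρ := one_mul _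
    · rw [w.map_mul]
      calc _ ≤ ρ * 1 := mul_le_mul (mon_cong hw hρ Finset.univ (fun c => m (0, c)) a a' ha ha' h)
            (mon_le Finset.univ (fun c => m (1, c)) b' hb') (w.nonneg _) hρ
        _ = ρ := mul_one _
  calc _ ≤ 1 * ρ := mul_le_mul (hF m) h1 (w.nonneg _) zero_le_one
    _ = ρ := one_mul _

/-- dependence on the second group of variables -/
lemma lin_split (hw : Um w) {N ι : Type} {u : ι → N → K} {π : K} (hπ0 : π ≠ 0)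
    (F : MvPolynomial (Fin 2 × Fin n) K) (hF : ∀ m, w (coeff m F) ≤ 1) (g : Fin n → N → K)
    (hg : ∀ c, Sm w u (g c)) {b b' : Fin n → K} (hb : ∀ c, w (b c) ≤ 1)
    (hb' : ∀ c, w (b' c) ≤ 1) (h : ∀ c, w (b c - b' c) ≤ w π) :
    Sm w u (fun x => ev F ![fun c => g c x, b]) ∧
    ∃ f, Sm w u f ∧ ∀ x, ev F ![fun c => g c x, b] = ev F ![fun c => g c x, b'] + π * f x := by
  have hmon : ∀ m : Fin 2 × Fin n →₀ ℕ, Sm w u (fun x => ∏ c, g c x ^ m (0, c)) := fun m =>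
    Sm.prod Finset.univ (fun c x => g c x ^ m (0, c)) (fun c _ => (hg c).pow _)
  constructor
  · have h1 : (fun x => ev F ![fun c => g c x, b]) = fun x => ∑ m ∈ F.support,
        (coeff m F * ∏ c, b c ^ m (1, c)) * ∏ c, g c x ^ m (0, c) := by
      funext x
      rw [ev2]
      exact Finset.sum_congr rfl (fun m _ => by ring)
    rw [h1]
    refine Sm.sum _ (fun m x => (coeff m F * ∏ c, b c ^ m (1, c)) * ∏ c, g c x ^ m (0, c))
      (fun m _ => Sm.mul (Sm.const _ ?_) (hmon m))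
    rw [w.map_mul]
    exact mul_le_one₀ (hF m) (w.nonneg _) (mon_le Finset.univ (fun c => m (1, c)) b hb)
  · refine ⟨fun x => ∑ m ∈ F.support, (coeff m F * (((∏ c, b c ^ m (1, c)) -
      ∏ c, b' c ^ m (1, c)) / π)) * ∏ c, g c x ^ m (0, c), ?_, fun x => ?_⟩
    · refine Sm.sum _ (fun m x => (coeff m F * (((∏ c, b c ^ m (1, c)) -
        ∏ c, b' c ^ m (1, c)) / π)) * ∏ c, g c x ^ m (0, c))
        (fun m _ => Sm.mul (Sm.const _ ?_) (hmon m))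
      rw [w.map_mul]
      refine mul_le_one₀ (hF m) (w.nonneg _) ?_
      rw [map_div₀, div_le_one (w.pos hπ0)]
      exact mon_cong hw (w.nonneg _) Finset.univ (fun c => m (1, c)) b b' hb hb' h
    · rw [ev2, ev2, Finset.mul_sum, ← Finset.sum_add_distrib]
      refine Finset.sum_congr rfl (fun m _ => ?_)
      field_simp
      ring

end cong

section low

variable {K : Type} [Field K] {n : ℕ}

/-- the forms `Λ` are not all small -/
theorem Λ_low (A : AbR K n) (w : AbsoluteValue K ℝ) : ∃ κ : ℝ, 1 ≤ κ ∧ ∀ (P Q : A.Pt K),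
    ∃ i j, ∀ a b, w (P.1 a) ^ 2 * w (Q.1 b) ^ 2 ≤ κ * w (ev (A.Λ i j) ![P.1, Q.1]) := by
  classical
  set Fm : Finset (Fin n × Fin n → MvPolynomial (Fin 2 × Fin n) K) :=
    {fun p => A.Λ p.1 p.2} with hFm
  have hvec : ∀ (F : Type) [Field F] [Algebra K F] (P : Fin 2 → A.Pt F),
      (fun j => (P j).1) = ![(P 0).1, (P 1).1] := by
    intro F _ _ P
    funext j
    fin_cases j <;> rfl
  have hsp : ∀ (F : Type) [Field F] [Algebra K F] (P Q : A.Pt F), ∃ s : F, s ≠ 0 ∧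
      ∀ i j, ev (A.Λ i j) ![P.1, Q.1] = s * ((P + Q).1 i * (P - Q).1 j) :=
    fun F _ _ P Q => A.Λ_spec F P Q
  have htne : ∀ (F : Type) [Field F] [Algebra K F] (P Q : A.Pt F),
      (fun p : Fin n × Fin n => P.1 p.1 * Q.1 p.2) ≠ 0 := by
    intro F _ _ P Q h0
    obtain ⟨i, hi, -⟩ := P.2.1
    obtain ⟨j, hj, -⟩ := Q.2.1
    have := congrFun h0 (i, j)
    simp [hi, hj] at this
  have hFam : IsFam (wqX (fun _ : Fin 2 => A.var)) (fun _ => 2) Fm := by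
    constructor
    · intro C hC c
      rw [hFm, Finset.mem_singleton] at hC
      rw [hC]
      exact A.Λ_hom c.1 c.2
    · intro F _ _ u hu
      obtain ⟨P, r, hr, rfl⟩ := exists_ptA A hu
      obtain ⟨s, hs, hs'⟩ := hsp F (P 0) (P 1)
      obtain ⟨p, hp⟩ := Function.ne_iff.mp (htne F (P 0 + P 1) (P 0 - P 1))
      refine ⟨_, Finset.mem_singleton_self _, p, ?_⟩
      rw [ev_smul (A.Λ_hom p.1 p.2), hvec, hs']
      refine mul_ne_zero (Finset.prod_ne_zero_iff.mpr (fun j _ => pow_ne_zero _ (hr j)))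
        (mul_ne_zero hs hp)
  obtain ⟨B, M, e0, hM, hB⟩ := locF_fam (wqX (fun _ : Fin 2 => A.var)) (wqX_MH _)
    (fun _ _ _ _ _ => True) Fm hFam
  refine ⟨Pool.Agent.TH954.V.kap B M e0 w, Pool.Agent.TH954.V.one_le_kap B hM e0 w,
    fun P Q => ?_⟩
  obtain ⟨s, hs0, hs⟩ := hsp K P Q
  set t : Fin n × Fin n → K := fun p => (P + Q).1 p.1 * (P - Q).1 p.2 with ht
  have ht0 : t ≠ 0 := htne K (P + Q) (P - Q)
  set u : Fin 2 → Fin n → K := ![P.1, Q.1] with hu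
  have hOn : OnS (wqX (fun _ : Fin 2 => A.var)) u := by
    have := onS_ptA A ![P, Q]
    rw [hvec] at this
    exact this
  have hev : (fun p : Fin n × Fin n => ev (A.Λ p.1 p.2) u) = s • t := by
    funext p
    rw [hs, Pi.smul_apply, smul_eq_mul]
  have hTg : Tg Fm u t := by
    refine ⟨ht0, fun C hC => ⟨s, ?_⟩⟩
    rw [hFm, Finset.mem_singleton] at hC
    rw [hC]
    exact hev
  obtain ⟨C, hC, s', hs', hle⟩ := hB K w u hOn trivial t hTg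
  rw [hFm, Finset.mem_singleton] at hC
  subst hC
  have hne : Nonempty (Fin n × Fin n) := let ⟨i, _⟩ := Function.ne_iff.mp ht0; ⟨i⟩
  obtain ⟨p, hp⟩ := exists_supW w t
  have h1 : w (ev (A.Λ p.1 p.2) u) = w s' * ⨆ c, w (t c) := by
    have h2 := congrFun hs' p
    beta_reduce at h2
    rw [h2, Pi.smul_apply, smul_eq_mul, w.map_mul, hp]
  have hprod : ∏ j : Fin 2, (⨆ c, w (u j c)) ^ 2 =
      (⨆ c, w (P.1 c)) ^ 2 * (⨆ c, w (Q.1 c)) ^ 2 := by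
    rw [Fin.prod_univ_two]
    rfl
  refine ⟨p.1, p.2, fun a b => ?_⟩
  rw [h1]
  refine le_trans ?_ hle
  rw [hprod]
  exact mul_le_mul (pow_le_pow_left₀ (w.nonneg _) (le_supW w P.1 a) _)
    (pow_le_pow_left₀ (w.nonneg _) (le_supW w Q.1 b) _) (by positivity) (by positivity)

end low

section near

variable {K : Type} [Field K] {n : ℕ} (w : AbsoluteValue K ℝ) (A : AbR K n) (i0 : Fin n)

/-- good places -/
structure Gd : Prop where
  um : Um w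
  int : ∀ i j m, w (coeff m (A.Λ i j)) ≤ 1
  o1 : (0 : A.Pt K).1 i0 = 1
  ole : ∀ c, w ((0 : A.Pt K).1 c) ≤ 1
  unit : w (ev (A.Λ i0 i0) ![(0 : A.Pt K).1, (0 : A.Pt K).1]) = 1

/-- affine coordinates -/
def af (P : A.Pt K) (c : Fin n) : K := P.1 c / P.1 i0

/-- points near the origin -/
def Nr (ρ : ℝ) (P : A.Pt K) : Prop :=
  P.1 i0 ≠ 0 ∧ ∀ c, w (af A i0 P c - (0 : A.Pt K).1 c) ≤ ρ

variable {w A i0}

lemma af_zero (h : Gd w A i0) : af A i0 (0 : A.Pt K) = (0 : A.Pt K).1 := by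
  funext c
  unfold af
  rw [h.o1, div_one]

lemma Nr.zero (h : Gd w A i0) {ρ : ℝ} (hρ : 0 ≤ ρ) : Nr w A i0 ρ 0 := by
  refine ⟨?_, fun c => ?_⟩
  · rw [h.o1]
    exact one_ne_zero
  · rw [af_zero h, sub_self, w.map_zero]
    exact hρ

lemma Nr.le (h : Gd w A i0) {ρ : ℝ} (hρ1 : ρ ≤ 1) {P : A.Pt K} (hP : Nr w A i0 ρ P) (c : Fin n) :
    w (af A i0 P c) ≤ 1 := by
  have h1 : af A i0 P c = (af A i0 P c - (0 : A.Pt K).1 c) + (0 : A.Pt K).1 c := by ring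
  rw [h1]
  exact (h.um _ _).trans (max_le ((hP.2 c).trans hρ1) (h.ole c))

lemma af_spec {P Q : A.Pt K} (hP : P.1 i0 ≠ 0) (hQ : Q.1 i0 ≠ 0) : ∃ s : K, s ≠ 0 ∧
    ∀ i j, ev (A.Λ i j) ![af A i0 P, af A i0 Q] = s * ((P + Q).1 i * (P - Q).1 j) := by
  obtain ⟨s, hs, h⟩ : ∃ s : K, s ≠ 0 ∧
      ∀ i j, ev (A.Λ i j) ![P.1, Q.1] = s * ((P + Q).1 i * (P - Q).1 j) := A.Λ_spec K P Q
  refine ⟨((P.1 i0)⁻¹ ^ 2 * (Q.1 i0)⁻¹ ^ 2) * s, ?_, fun i j => ?_⟩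
  · exact mul_ne_zero (mul_ne_zero (pow_ne_zero _ (inv_ne_zero hP))
      (pow_ne_zero _ (inv_ne_zero hQ))) hs
  · have h1 : (![af A i0 P, af A i0 Q] : Fin 2 → Fin n → K) =
        fun l => (![(P.1 i0)⁻¹, (Q.1 i0)⁻¹] : Fin 2 → K) l • (![P.1, Q.1] : Fin 2 → Fin n → K) l := by
      funext l c
      fin_cases l
      · simp [af, div_eq_inv_mul]
      · simp [af, div_eq_inv_mul]
    rw [h1, ev_smul (A.Λ_hom i j), h, Fin.prod_univ_two]
    simp only [Matrix.cons_val_zero, Matrix.cons_val_one]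
    ring

lemma unit_near (h : Gd w A i0) {ρ : ℝ} (hρ0 : 0 ≤ ρ) (hρ1 : ρ < 1) {P Q : A.Pt K}
    (hP : Nr w A i0 ρ P) (hQ : Nr w A i0 ρ Q) :
    w (ev (A.Λ i0 i0) ![af A i0 P, af A i0 Q]) = 1 := by
  have h1 := ev2_cong h.um hρ0 (A.Λ i0 i0) (h.int i0 i0) (hP.le h hρ1.le) (hQ.le h hρ1.le) h.ole
    h.ole hP.2 hQ.2
  have h2 : ev (A.Λ i0 i0) ![(0 : A.Pt K).1, (0 : A.Pt K).1] =
      ev (A.Λ i0 i0) ![af A i0 P, af A i0 Q] + -(ev (A.Λ i0 i0) ![af A i0 P, af A i0 Q] -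
        ev (A.Λ i0 i0) ![(0 : A.Pt K).1, (0 : A.Pt K).1]) := by ring
  have h3 : ev (A.Λ i0 i0) ![af A i0 P, af A i0 Q] =
      ev (A.Λ i0 i0) ![(0 : A.Pt K).1, (0 : A.Pt K).1] +
        (ev (A.Λ i0 i0) ![af A i0 P, af A i0 Q] -
        ev (A.Λ i0 i0) ![(0 : A.Pt K).1, (0 : A.Pt K).1]) := by ring
  refine le_antisymm ?_ ?_
  · rw [h3]
    exact (h.um _ _).trans (max_le h.unit.le (h1.trans hρ1.le))
  · by_contra hlt
    push Not at hlt
    have h4 := h.unit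
    rw [h2] at h4
    have h5 := h.um (ev (A.Λ i0 i0) ![af A i0 P, af A i0 Q])
      (-(ev (A.Λ i0 i0) ![af A i0 P, af A i0 Q] -
        ev (A.Λ i0 i0) ![(0 : A.Pt K).1, (0 : A.Pt K).1]))
    rw [h4, w.map_neg] at h5
    have h6 := max_lt hlt (h1.trans_lt hρ1)
    linarith

lemma Nr.add (h : Gd w A i0) {ρ : ℝ} (hρ0 : 0 ≤ ρ) (hρ1 : ρ < 1) {P Q : A.Pt K}
    (hP : Nr w A i0 ρ P) (hQ : Nr w A i0 ρ Q) : Nr w A i0 ρ (P + Q) := by
  obtain ⟨s, hs, hs'⟩ := af_spec hP.1 hQ.1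
  have hu := unit_near h hρ0 hρ1 hP hQ
  have hu0 : ev (A.Λ i0 i0) ![af A i0 P, af A i0 Q] ≠ 0 := by
    intro h0
    rw [h0, w.map_zero] at hu
    exact zero_ne_one hu
  have h1 : (P + Q).1 i0 ≠ 0 := by
    intro h0
    apply hu0
    rw [hs', h0, zero_mul, mul_zero]
  have h2 : (P - Q).1 i0 ≠ 0 := by
    intro h0
    apply hu0
    rw [hs', h0, mul_zero, mul_zero]
  refine ⟨h1, fun c => ?_⟩
  obtain ⟨s0, hs0, hs0'⟩ := af_spec (A := A) (i0 := i0) (P := 0) (Q := 0)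
    (by rw [h.o1]; exact one_ne_zero) (by rw [h.o1]; exact one_ne_zero)
  rw [add_zero, sub_zero, af_zero h] at hs0'
  have h3 : af A i0 (P + Q) c = ev (A.Λ c i0) ![af A i0 P, af A i0 Q] /
      ev (A.Λ i0 i0) ![af A i0 P, af A i0 Q] := by
    rw [hs', hs']
    unfold af
    field_simp
  have h4 : ev (A.Λ c i0) ![(0 : A.Pt K).1, (0 : A.Pt K).1] = (0 : A.Pt K).1 c *
      ev (A.Λ i0 i0) ![(0 : A.Pt K).1, (0 : A.Pt K).1] := by
    rw [hs0', hs0', h.o1]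
    ring
  have h5 : af A i0 (P + Q) c - (0 : A.Pt K).1 c =
      ((ev (A.Λ c i0) ![af A i0 P, af A i0 Q] -
        ev (A.Λ c i0) ![(0 : A.Pt K).1, (0 : A.Pt K).1]) -
        (0 : A.Pt K).1 c * (ev (A.Λ i0 i0) ![af A i0 P, af A i0 Q] -
        ev (A.Λ i0 i0) ![(0 : A.Pt K).1, (0 : A.Pt K).1])) /
        ev (A.Λ i0 i0) ![af A i0 P, af A i0 Q] := by
    rw [h3, h4]
    field_simp
    ring
  rw [h5, map_div₀, hu, div_one]
  refine um_sub h.um ?_ ?_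
  · exact ev2_cong h.um hρ0 (A.Λ c i0) (h.int c i0) (hP.le h hρ1.le) (hQ.le h hρ1.le) h.ole
      h.ole hP.2 hQ.2
  · rw [w.map_mul]
    calc _ ≤ 1 * ρ := mul_le_mul (h.ole c) (ev2_cong h.um hρ0 (A.Λ i0 i0) (h.int i0 i0)
          (hP.le h hρ1.le) (hQ.le h hρ1.le) h.ole h.ole hP.2 hQ.2) (w.nonneg _) zero_le_one
      _ = ρ := one_mul _

/-- the difference of two points with congruent coordinates is near the origin -/
lemma near_of_cong (h : Gd w A i0) {κ : ℝ} (hκ : 1 ≤ κ) (hlow : ∀ (P Q : A.Pt K),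
    ∃ i j, ∀ a b, w (P.1 a) ^ 2 * w (Q.1 b) ^ 2 ≤ κ * w (ev (A.Λ i j) ![P.1, Q.1]))
    {ρ ε : ℝ} (hρ0 : 0 < ρ) (hρ1 : ρ < 1) (hε0 : 0 ≤ ε) (hε : ε * κ ≤ ρ) {P Q : A.Pt K} {i j : Fin n}
    (hi : P.1 i ≠ 0) (hj : Q.1 j ≠ 0)
    (hPi : ∀ c, w (P.1 c / P.1 i) ≤ 1) (hQj : ∀ c, w (Q.1 c / Q.1 j) ≤ 1)
    (hPQ : ∀ c, w (Q.1 c / Q.1 j - P.1 c / P.1 i) ≤ ε) : Nr w A i0 ρ (Q - P) := by
  have hκ0 : 0 < κ := zero_lt_one.trans_le hκ
  obtain ⟨s, hs, hs'⟩ : ∃ s : K, s ≠ 0 ∧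
      ∀ a c, ev (A.Λ a c) ![P.1, P.1] = s * ((P + P).1 a * (P - P).1 c) := A.Λ_spec K P P
  obtain ⟨t, ht, ht'⟩ : ∃ s : K, s ≠ 0 ∧
      ∀ a c, ev (A.Λ a c) ![Q.1, P.1] = s * ((Q + P).1 a * (Q - P).1 c) := A.Λ_spec K Q P
  rw [sub_self] at hs'
  obtain ⟨a, c0, hac⟩ := hlow P P
  have hsc : ∀ (R S : A.Pt K) (k l : Fin n) (a c : Fin n),
      ev (A.Λ a c) ![fun c => R.1 c / R.1 k, fun c => S.1 c / S.1 l] =
      ((R.1 k)⁻¹ ^ 2 * (S.1 l)⁻¹ ^ 2) * ev (A.Λ a c) ![R.1, S.1] := by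
    intro R S k l a c
    have h1 : (![fun c => R.1 c / R.1 k, fun c => S.1 c / S.1 l] : Fin 2 → Fin n → K) =
        fun m => (![(R.1 k)⁻¹, (S.1 l)⁻¹] : Fin 2 → K) m • (![R.1, S.1] : Fin 2 → Fin n → K) m := by
      funext m c
      fin_cases m
      · simp [div_eq_inv_mul]
      · simp [div_eq_inv_mul]
    rw [h1, ev_smul (A.Λ_hom a c), Fin.prod_univ_two]
    simp only [Matrix.cons_val_zero, Matrix.cons_val_one]
  set x : Fin n → K := fun c => P.1 c / P.1 i with hx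
  set y : Fin n → K := fun c => Q.1 c / Q.1 j with hy
  set D := ev (A.Λ a i0) ![x, x] with hD
  set D' := ev (A.Λ a i0) ![y, x] with hD'
  have hDlow : 1 ≤ κ * w D := by
    have h1 := hac i i
    have h2 : w (ev (A.Λ a c0) ![P.1, P.1]) ≤ w (ev (A.Λ a i0) ![P.1, P.1]) := by
      rw [hs', hs', h.o1, mul_one, ← mul_assoc, w.map_mul]
      calc _ ≤ w (s * (P + P).1 a) * 1 := mul_le_mul_of_nonneg_left (h.ole c0) (w.nonneg _)
        _ = _ := mul_one _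
    have h3 : w (P.1 i) ^ 2 * w (P.1 i) ^ 2 ≤ κ * w (ev (A.Λ a i0) ![P.1, P.1]) :=
      h1.trans (mul_le_mul_of_nonneg_left h2 hκ0.le)
    have hwi : 0 < w (P.1 i) := w.pos hi
    rw [hD, hx, hsc, w.map_mul, w.map_mul, w.map_pow, map_inv₀]
    have h4 : κ * ((w (P.1 i))⁻¹ ^ 2 * (w (P.1 i))⁻¹ ^ 2 * w (ev (A.Λ a i0) ![P.1, P.1])) =
        (κ * w (ev (A.Λ a i0) ![P.1, P.1])) / (w (P.1 i) ^ 2 * w (P.1 i) ^ 2) := by
      field_simp
    rw [h4, one_le_div (by positivity)]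
    exact h3
  have hcong : ∀ c, w (ev (A.Λ a c) ![y, x] - ev (A.Λ a c) ![x, x]) ≤ ε := fun c =>
    ev2_cong h.um hε0 (A.Λ a c) (h.int a c) hQj hPi hPi hPi hPQ
      (fun c => by rw [sub_self, w.map_zero]; exact hε0)
  have hεκ : ε < w D := by
    have h1 : ε * κ < κ * w D := hε.trans_lt (hρ1.trans_le hDlow)
    nlinarith
  have hDD : w D ≤ w D' := by
    by_contra hlt
    push Not at hlt
    have h1 : D = D' + -(D' - D) := by ring
    have h2 := h.um D' (-(D' - D))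
    rw [← h1, w.map_neg] at h2
    have h3 := max_lt hlt ((hcong i0).trans_lt hεκ)
    linarith
  have hD0 : 0 < w D := hε0.trans_lt hεκ
  have hD'0 : D' ≠ 0 := by
    intro h0
    rw [h0, w.map_zero] at hDD
    linarith
  have hDne : D ≠ 0 := by
    intro h0
    rw [h0, w.map_zero] at hD0
    exact lt_irrefl _ hD0
  have hyx : ∀ c, ev (A.Λ a c) ![y, x] =
      ((Q.1 j)⁻¹ ^ 2 * (P.1 i)⁻¹ ^ 2) * (t * ((Q + P).1 a * (Q - P).1 c)) := by
    intro c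
    rw [hy, hx, hsc, ht']
  have hxx : ∀ c, ev (A.Λ a c) ![x, x] =
      ((P.1 i)⁻¹ ^ 2 * (P.1 i)⁻¹ ^ 2) * (s * ((P + P).1 a * (0 : A.Pt K).1 c)) := by
    intro c
    rw [hx, hsc, hs']
  have h1 : (Q - P).1 i0 ≠ 0 := by
    intro h0
    apply hD'0
    rw [hD', hyx, h0]
    ring
  refine ⟨h1, fun c => ?_⟩
  have h2 : ev (A.Λ a c) ![x, x] = (0 : A.Pt K).1 c * D := by
    rw [hD, hxx, hxx, h.o1]
    ring
  have h3 : ev (A.Λ a c) ![y, x] = af A i0 (Q - P) c * D' := by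
    rw [hD', hyx, hyx]
    unfold af
    field_simp
  have h4 : af A i0 (Q - P) c - (0 : A.Pt K).1 c =
      ((ev (A.Λ a c) ![y, x] - ev (A.Λ a c) ![x, x]) - (0 : A.Pt K).1 c * (D' - D)) / D' := by
    rw [h2, h3]
    field_simp
    ring
  have h5 : w ((ev (A.Λ a c) ![y, x] - ev (A.Λ a c) ![x, x]) -
      (0 : A.Pt K).1 c * (D' - D)) ≤ ε := by
    refine um_sub h.um (hcong c) ?_
    rw [w.map_mul]
    calc _ ≤ 1 * ε := mul_le_mul (h.ole c) (hcong i0) (w.nonneg _) zero_le_one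
      _ = ε := one_mul _
  rw [h4, map_div₀, div_le_iff₀ (hD0.trans_le hDD)]
  refine h5.trans ?_
  have h6 : ε * 1 ≤ ε * (κ * w D) := mul_le_mul_of_nonneg_left hDlow hε0
  have h7 : ρ * w D ≤ ρ * w D' := mul_le_mul_of_nonneg_left hDD hρ0.le
  have h8 : ε * κ * w D ≤ ρ * w D := mul_le_mul_of_nonneg_right hε hD0.le
  linarith

end near

end Pool.Agent.J4H27.CY
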