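import Pool.Agent.J4H27.CY.Nr

/-!
# Zeros of forms on an orbit of a translation: a uniform bound
-/

set_option autoImplicit false
set_option linter.unusedSectionVars false

open MvPolynomial Pool.Agent.TH954.X Pool.Agent.TH954.Z Pool.Agent.TH954.Z.Dns
  Pool.Agent.J4H27.ML

namespace Pool.Agent.J4H27.CY

section sh

variable {K : Type} [Field K] {n β : ℕ} {A : Fin β → AbV K n} {F : Type} [Field F] [Algebra K F]

lemma ev_Tr' (c : Fin β → Fin n → K) (j0 : Fin β → Fin n) (b : Fin β) (i : Fin n)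
    (u : Fin β → Fin n → F) :
    ev (Tr (K := K) (F := K) A c j0 b i) u =
      ev ((A b).Λ i (j0 b)) ![u b, fun e => algebraMap K F (c b e)] := by
  unfold Tr ev
  have h := MvPolynomial.comp_aeval_apply
    (f := fun p : Fin 2 × Fin n => if p.1 = 0 then (X (b, p.2) : MvPolynomial (Fin β × Fin n) K)
      else C (c b p.2)) (aeval (fun p : Fin β × Fin n => u p.1 p.2) :
        MvPolynomial (Fin β × Fin n) K →ₐ[K] F) ((A b).Λ i (j0 b))
  refine h.trans ?_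
  congr 1
  congr 1
  funext p
  obtain ⟨l, e⟩ := p
  fin_cases l
  · simp
  · simp

lemma ev_sh' (P : Bp A F) (T : Bp A K) : ∃ s : Fin β → F, (∀ b, s b ≠ 0) ∧
    ∀ (j0 : Fin β → Fin n) (Φ : MvPolynomial (Fin β × Fin n) K) (δ : Fin β → ℕ), MH δ Φ →
      ev (sh A (vc T) j0 Φ) (vc P) =
        (∏ b, (s b * ((P - bc F T) b).1 (j0 b)) ^ δ b) * ev Φ (vc (P + bc F T)) := by
  choose s hs h using fun b => (A b).Λ_spec F (P b) (bc F T b)
  refine ⟨s, hs, fun j0 Φ δ hΦ => ?_⟩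
  unfold sh
  rw [ev_cmp]
  have h1 : (fun b i => ev (Tr (K := K) (F := K) A (vc T) j0 b i) (vc P)) =
      fun b => (s b * ((P - bc F T) b).1 (j0 b)) • vc (P + bc F T) b := by
    funext b i
    rw [ev_Tr']
    have h2 := h b i (j0 b)
    refine Eq.trans ?_ (h2.trans ?_)
    · rfl
    · rw [Pi.smul_apply, smul_eq_mul]
      have h3 : vc (P + bc F T) b i = (((A b).grp F).add (P b) (bc F T b)).1 i := rfl
      have h4 : ((P - bc F T) b).1 (j0 b) = (((A b).grp F).sub (P b) (bc F T b)).1 (j0 b) := rfl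
      rw [h3, h4]
      ring
  rw [h1, ev_smul hΦ]

lemma NZ_sh (T : Bp A K) {Φ : MvPolynomial (Fin β × Fin n) K} {δ : Fin β → ℕ} (hΦ : MH δ Φ)
    (h : NZ A Φ) : ∃ j0, NZ A (sh A (vc T) j0 Φ) := by
  obtain ⟨F, _, _, P, hP⟩ := h
  obtain ⟨s, hs, hs'⟩ := ev_sh' (P - bc F T) T
  choose j0 hj0 _ using fun b => ((P - bc F T - bc F T) b).2.1
  refine ⟨j0, F, inferInstance, inferInstance, P - bc F T, ?_⟩
  rw [hs' j0 Φ δ hΦ, sub_add_cancel]
  refine mul_ne_zero (Finset.prod_ne_zero_iff.2 fun b _ => pow_ne_zero _ ?_) hP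
  rw [hj0 b, mul_one]
  exact hs b

lemma bc_self (P : Bp A K) : bc K P = P := rfl

lemma sh_zero {P T : Bp A K} {Φ : MvPolynomial (Fin β × Fin n) K} {δ : Fin β → ℕ}
    (hΦ : MH δ Φ) (h : ev Φ (vc (P + T)) = 0) (j0 : Fin β → Fin n) :
    ev (sh A (vc T) j0 Φ) (vc P) = 0 := by
  obtain ⟨s, -, hs⟩ := ev_sh' P T
  rw [hs j0 Φ δ hΦ, bc_self, h, mul_zero]

lemma NZ_iff (Φ : MvPolynomial (Fin β × Fin n) K) : N A Φ ↔ NZ A Φ := by
  constructor
  · rintro ⟨F, _, _, v, hv, h⟩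
    exact ⟨F, inferInstance, inferInstance, fun b => ⟨v b, hv b⟩, h⟩
  · rintro ⟨F, _, _, P, h⟩
    exact ⟨F, inferInstance, inferInstance, vc P, fun b => (P b).2, h⟩

/-- density of the multiples of a multiple -/
lemma dens_near {P Q0 : Bp A K}
    (hd : ∀ (Φ : MvPolynomial (Fin β × Fin n) K) (δ : Fin β → ℕ), MH δ Φ →
      (∀ m : ℕ, ev Φ (vc (Q0 + m • P)) = 0) → ¬ NZ A Φ) {N' : ℕ} (hN : 0 < N')
    {Ψ : MvPolynomial (Fin β × Fin n) K} {δ : Fin β → ℕ} (hΨ : MH δ Ψ)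
    (hz : ∀ k : ℕ, ev Ψ (vc (k • (N' • P))) = 0) : ¬ NZ A Ψ := by
  intro h
  choose j1 hj1 using fun r : ℕ => NZ_sh (A := A) (-(Q0 + r • P)) hΨ h
  have h1 : N A (1 : MvPolynomial (Fin β × Fin n) K) := by
    obtain ⟨F, _, _, v, _⟩ := h
    refine ⟨F, inferInstance, inferInstance, vc v, fun b => (v b).2, ?_⟩
    simp [ev]
  obtain ⟨⟨τ, hτ⟩, h2⟩ := N_prod A h1 (Finset.range N')
    (fun r => sh A (vc (-(Q0 + r • P))) (j1 r) Ψ) (fun r _ => MH_sh _ _ hΨ)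
    (fun r _ => (NZ_iff _).2 (hj1 r))
  refine hd _ τ hτ (fun m => ?_) ((NZ_iff _).1 h2)
  unfold ev
  rw [map_prod]
  refine Finset.prod_eq_zero (Finset.mem_range.2 (Nat.mod_lt m hN)) ?_
  refine sh_zero hΨ ?_ _
  have h3 : Q0 + m • P + -(Q0 + (m % N') • P) = (m / N') • (N' • P) := by
    have h4 : m • P = (m / N') • (N' • P) + (m % N') • P := by
      rw [smul_smul, ← add_smul, mul_comm, Nat.div_add_mod]
    rw [h4]
    abel
  rw [h3]
  exact hz _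

end sh

section near

variable {K : Type} [Field K] {n β : ℕ} (w : AbsoluteValue K ℝ) (A : Fin β → AbV K n)
  (i0 : Fin β → Fin n) (π : K)

/-- the points near the origin -/
def NR : Type := {x : Bp A K // ∀ b, Nr w (A b).toAbR (i0 b) (w π) (x b)}

variable {w A i0 π}

/-- affine coordinates -/
def uu (p : Fin β × Fin n) (x : NR w A i0 π) : K := af (A p.1).toAbR (i0 p.1) (x.1 p.1) p.2

/-- the translation by a point near the origin -/
def tau (hG : ∀ b, Gd w (A b).toAbR (i0 b)) (hπ1 : w π < 1) (q x : NR w A i0 π) : NR w A i0 π :=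
  ⟨x.1 + q.1, fun b => (x.2 b).add (hG b) (w.nonneg _) hπ1 (q.2 b)⟩

lemma tau_iter (hG : ∀ b, Gd w (A b).toAbR (i0 b)) (hπ1 : w π < 1) (q x : NR w A i0 π) (k : ℕ) :
    ((tau hG hπ1 q)^[k] x).1 = x.1 + k • q.1 := by
  induction k with
  | zero => simp
  | succ k ih =>
    rw [Function.iterate_succ_apply']
    change ((tau hG hπ1 q)^[k] x).1 + q.1 = _
    rw [ih, succ_nsmul, add_assoc]

lemma af_add {A : AbR K n} {i0 : Fin n} (h : Gd w A i0) (hπ1 : w π < 1) {P Q : A.Pt K}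
    (hP : Nr w A i0 (w π) P) (hQ : Nr w A i0 (w π) Q) (c : Fin n) :
    af A i0 (P + Q) c * ev (A.Λ i0 i0) ![af A i0 P, af A i0 Q] =
      ev (A.Λ c i0) ![af A i0 P, af A i0 Q] := by
  have hu := unit_near h (w.nonneg _) hπ1 hP hQ
  have hu0 : ev (A.Λ i0 i0) ![af A i0 P, af A i0 Q] ≠ 0 := by
    intro h0
    rw [h0, w.map_zero] at hu
    exact zero_ne_one hu
  obtain ⟨s, hs, hs'⟩ := af_spec hP.1 hQ.1
  have h1 : (P + Q).1 i0 ≠ 0 := by
    intro h0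
    apply hu0
    rw [hs', h0, zero_mul, mul_zero]
  rw [hs', hs']
  unfold af
  field_simp

lemma af_add_zero {A : AbR K n} {i0 : Fin n} (h : Gd w A i0) {P : A.Pt K}
    (hP : Nr w A i0 (w π) P) (c : Fin n) :
    af A i0 P c * ev (A.Λ i0 i0) ![af A i0 P, (0 : A.Pt K).1] =
      ev (A.Λ c i0) ![af A i0 P, (0 : A.Pt K).1] := by
  obtain ⟨t, ht, ht'⟩ := af_spec (A := A) (i0 := i0) (P := P) (Q := 0)
    hP.1 (by rw [h.o1]; exact one_ne_zero)
  rw [add_zero, sub_zero, af_zero h] at ht'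
  rw [ht', ht']
  have h6 := hP.1
  unfold af
  field_simp

lemma uu_tau (hG : ∀ b, Gd w (A b).toAbR (i0 b)) (hπ1 : w π < 1) (q x : NR w A i0 π)
    (b : Fin β) (c : Fin n) :
    uu (b, c) (tau hG hπ1 q x) *
      ev ((A b).Λ (i0 b) (i0 b)) ![fun c => uu (b, c) x, fun c => uu (b, c) q] =
      ev ((A b).Λ c (i0 b)) ![fun c => uu (b, c) x, fun c => uu (b, c) q] :=
  af_add (hG b) hπ1 (x.2 b) (q.2 b) c

lemma uu_zero (hG : ∀ b, Gd w (A b).toAbR (i0 b)) (x : NR w A i0 π) (b : Fin β) (c : Fin n) :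
    uu (b, c) x *
      ev ((A b).Λ (i0 b) (i0 b)) ![fun c => uu (b, c) x, (0 : (A b).Pt K).1] =
      ev ((A b).Λ c (i0 b)) ![fun c => uu (b, c) x, (0 : (A b).Pt K).1] :=
  af_add_zero (hG b) (x.2 b) c

lemma uu_le (hG : ∀ b, Gd w (A b).toAbR (i0 b)) (hπ1 : w π < 1) (p : Fin β × Fin n)
    (x : NR w A i0 π) : w (uu p x) ≤ 1 := (x.2 p.1).le (hG p.1) hπ1.le p.2

lemma uu_cong (x : NR w A i0 π) (b : Fin β) (c : Fin n) :
    w (uu (b, c) x - (0 : (A b).Pt K).1 c) ≤ w π := (x.2 b).2 c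

lemma uu_unit (hG : ∀ b, Gd w (A b).toAbR (i0 b)) (hπ1 : w π < 1) (q x : NR w A i0 π)
    (b : Fin β) : w (ev ((A b).Λ (i0 b) (i0 b))
      ![fun c => uu (b, c) x, fun c => uu (b, c) q]) = 1 := by
  have h := unit_near (A := (A b).toAbR) (i0 := i0 b) (P := x.1 b) (Q := q.1 b) (ρ := w π)
    (hG b) (w.nonneg π) hπ1 (x.2 b) (q.2 b)
  exact h

lemma split_uu (hG : ∀ b, Gd w (A b).toAbR (i0 b)) (hπ0 : π ≠ 0) (hπ1 : w π < 1)
    (q : NR w A i0 π) (b : Fin β) (i : Fin n) : Sm w uu (fun x : NR w A i0 π =>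
      ev ((A b).Λ i (i0 b)) ![fun c => uu (b, c) x, fun c => uu (b, c) q]) ∧
      ∃ f, Sm w uu f ∧ ∀ x : NR w A i0 π,
        ev ((A b).Λ i (i0 b)) ![fun c => uu (b, c) x, fun c => uu (b, c) q] =
        ev ((A b).Λ i (i0 b)) ![fun c => uu (b, c) x, (0 : (A b).Pt K).1] + π * f x := by
  have hint : ∀ m, w (coeff m ((A b).Λ i (i0 b))) ≤ 1 := (hG b).int i (i0 b)
  have h1 : ∀ c, w (uu (b, c) q) ≤ 1 := fun c => uu_le hG hπ1 (b, c) q
  have h2 : ∀ c, w ((0 : (A b).Pt K).1 c) ≤ 1 := (hG b).ole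
  have h3 : ∀ c, w (uu (b, c) q - (0 : (A b).Pt K).1 c) ≤ w π := fun c => uu_cong q b c
  have hg : ∀ c, Sm w (uu (w := w) (A := A) (i0 := i0) (π := π))
      (fun x : NR w A i0 π => uu (b, c) x) := fun c => Sm.crd (b, c)
  exact lin_split (hG b).um hπ0 ((A b).Λ i (i0 b)) hint
    (fun c (x : NR w A i0 π) => uu (b, c) x) hg (b := fun c => uu (b, c) q)
    (b' := (0 : (A b).Pt K).1) h1 h2 h3

lemma step_uu (hG : ∀ b, Gd w (A b).toAbR (i0 b)) (hπ0 : π ≠ 0) (hπ1 : w π < 1)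
    (q : NR w A i0 π) (p : Fin β × Fin n) : ∃ h : NR w A i0 π → K, Sm w uu h ∧
      ∀ x, uu p (tau hG hπ1 q x) = uu p x + π * h x := by
  obtain ⟨b, c⟩ := p
  have key := split_uu hG hπ0 hπ1 q b
  obtain ⟨f1, hf1, hf1'⟩ := (key c).2
  obtain ⟨f2, hf2, hf2'⟩ := (key (i0 b)).2
  have hunit : ∀ x : NR w A i0 π, w (ev ((A b).Λ (i0 b) (i0 b))
      ![fun c => uu (b, c) x, fun c => uu (b, c) q]) = 1 :=
    fun x => uu_unit hG hπ1 q x b
  refine ⟨fun x => (f1 x - f2 x * uu (b, c) x) *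
    (ev ((A b).Λ (i0 b) (i0 b)) ![fun c => uu (b, c) x, fun c => uu (b, c) q])⁻¹,
    Sm.mul (hf1.sub (hf2.mul (Sm.crd (b, c)))) (Sm.inv (key (i0 b)).1 hunit), fun x => ?_⟩
  have hu0 : ev ((A b).Λ (i0 b) (i0 b)) ![fun c => uu (b, c) x, fun c => uu (b, c) q] ≠ 0 := by
    intro h0
    have h1 := hunit x
    rw [h0, w.map_zero] at h1
    exact zero_ne_one h1
  have h3 := uu_tau hG hπ1 q x b c
  have h4 := uu_zero hG x b c
  have h5 := hf1' x
  have h6 := hf2' x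
  refine mul_right_cancel₀ hu0 ?_
  rw [h3, add_mul, mul_assoc, mul_assoc, inv_mul_cancel₀ hu0, mul_one, h5, h6]
  linear_combination -h4

end near

end Pool.Agent.J4H27.CY
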