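import Pool.Agent.J4H27.CY.Fd

/-!
# Smooth functions and iterates of a map congruent to the identity
-/

set_option autoImplicit false
set_option linter.unusedSectionVars false

open MvPolynomial

namespace Pool.Agent.J4H27.CY

variable {K : Type} [Field K] (w : AbsoluteValue K ℝ) {N ι : Type} (u : ι → N → K)

/-- functions generated by integral constants, the coordinates, sums, products and inverses of
functions with unit values -/
inductive Sm : (N → K) → Prop
  | const (a : K) (ha : w a ≤ 1) : Sm (fun _ => a)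
  | crd (i : ι) : Sm (u i)
  | add {f g : N → K} (hf : Sm f) (hg : Sm g) : Sm (fun x => f x + g x)
  | mul {f g : N → K} (hf : Sm f) (hg : Sm g) : Sm (fun x => f x * g x)
  | inv {f : N → K} (hf : Sm f) (h : ∀ x, w (f x) = 1) : Sm (fun x => (f x)⁻¹)

variable {w u}

lemma Sm.le (hw : Um w) (hu : ∀ i x, w (u i x) ≤ 1) {f : N → K} (hf : Sm w u f) :
    ∀ x, w (f x) ≤ 1 := by
  induction hf with
  | const a ha => exact fun _ => ha
  | crd i => exact hu i
  | add _ _ h1 h2 => exact fun x => (hw _ _).trans (max_le (h1 x) (h2 x))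
  | mul _ _ h1 h2 =>
    intro x
    rw [w.map_mul]
    exact mul_le_one₀ (h1 x) (w.nonneg _) (h2 x)
  | inv _ h _ =>
    intro x
    rw [map_inv₀, h x, inv_one]

lemma Sm.neg {f : N → K} (hf : Sm w u f) : Sm w u (fun x => - f x) := by
  have h1 := Sm.mul (Sm.const (u := u) (-1 : K) (by rw [w.map_neg, w.map_one])) hf
  have h2 : (fun x => (-1 : K) * f x) = fun x => - f x := by
    funext x
    ring
  rwa [h2] at h1

lemma Sm.sub {f g : N → K} (hf : Sm w u f) (hg : Sm w u g) : Sm w u (fun x => f x - g x) := by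
  have h1 := Sm.add hf hg.neg
  have h2 : (fun x => f x + - g x) = fun x => f x - g x := by
    funext x
    ring
  rwa [h2] at h1

lemma Sm.pow {f : N → K} (hf : Sm w u f) (k : ℕ) : Sm w u (fun x => f x ^ k) := by
  induction k with
  | zero =>
    have h1 := Sm.const (u := u) (1 : K) w.map_one.le
    simpa using h1
  | succ k ih =>
    have h1 := Sm.mul ih hf
    have h2 : (fun x => f x ^ k * f x) = fun x => f x ^ (k + 1) := by
      funext x
      rw [pow_succ]
    rwa [h2] at h1

lemma Sm.prod {κ : Type} (s : Finset κ) (f : κ → N → K) (hf : ∀ i ∈ s, Sm w u (f i)) :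
    Sm w u (fun x => ∏ i ∈ s, f i x) := by
  classical
  induction s using Finset.induction_on with
  | empty =>
    have h1 := Sm.const (u := u) (1 : K) w.map_one.le
    simpa using h1
  | insert a s ha ih =>
    have h1 := Sm.mul (hf a (Finset.mem_insert_self a s))
      (ih fun i hi => hf i (Finset.mem_insert_of_mem hi))
    have h2 : (fun x => f a x * ∏ i ∈ s, f i x) = fun x => ∏ i ∈ insert a s, f i x := by
      funext x
      rw [Finset.prod_insert ha]
    rwa [h2] at h1

lemma Sm.sum {κ : Type} (s : Finset κ) (f : κ → N → K) (hf : ∀ i ∈ s, Sm w u (f i)) :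
    Sm w u (fun x => ∑ i ∈ s, f i x) := by
  classical
  induction s using Finset.induction_on with
  | empty =>
    have h1 := Sm.const (u := u) (0 : K) (by rw [w.map_zero]; exact zero_le_one)
    simpa using h1
  | insert a s ha ih =>
    have h1 := Sm.add (hf a (Finset.mem_insert_self a s))
      (ih fun i hi => hf i (Finset.mem_insert_of_mem hi))
    have h2 : (fun x => f a x + ∑ i ∈ s, f i x) = fun x => ∑ i ∈ insert a s, f i x := by
      funext x
      rw [Finset.sum_insert ha]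
    rwa [h2] at h1

lemma Sm.step {π : K} (hπ : w π ≤ 1) {τ : N → N}
    (hτ : ∀ i, ∃ h, Sm w u h ∧ ∀ x, u i (τ x) = u i x + π * h x) {f : N → K} (hf : Sm w u f) :
    ∃ h, Sm w u h ∧ ∀ x, f (τ x) = f x + π * h x := by
  induction hf with
  | const a ha =>
    refine ⟨fun _ => 0, Sm.const 0 (by rw [w.map_zero]; exact zero_le_one), fun x => ?_⟩
    rw [mul_zero, add_zero]
  | crd i => exact hτ i
  | add hf hg h1 h2 =>
    obtain ⟨a, ha, ha'⟩ := h1
    obtain ⟨b, hb, hb'⟩ := h2
    refine ⟨_, Sm.add ha hb, fun x => ?_⟩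
    beta_reduce
    rw [ha', hb']
    ring
  | @mul f g hf hg h1 h2 =>
    obtain ⟨a, ha, ha'⟩ := h1
    obtain ⟨b, hb, hb'⟩ := h2
    refine ⟨_, Sm.add (Sm.add (Sm.mul hf hb) (Sm.mul ha hg))
      (Sm.mul (Sm.const π hπ) (Sm.mul ha hb)), fun x => ?_⟩
    beta_reduce
    rw [ha', hb']
    ring
  | @inv f hf h h1 =>
    obtain ⟨a, ha, ha'⟩ := h1
    have h2 : Sm w u (fun x => (f x + π * a x)⁻¹) :=
      Sm.inv (Sm.add hf (Sm.mul (Sm.const π hπ) ha)) (fun x => by
        rw [← ha', h])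
    refine ⟨_, Sm.neg (Sm.mul (Sm.mul ha (Sm.inv hf h)) h2), fun x => ?_⟩
    have h3 : f x ≠ 0 := fun h0 => by
      have := h x
      rw [h0, w.map_zero] at this
      exact zero_ne_one this
    have h4 : f x + π * a x ≠ 0 := fun h0 => by
      have := h (τ x)
      rw [ha', h0, w.map_zero] at this
      exact zero_ne_one this
    beta_reduce
    rw [ha']
    field_simp
    ring

lemma Sm.iter {π : K} (hπ : w π ≤ 1) {τ : N → N}
    (hτ : ∀ i, ∃ h, Sm w u h ∧ ∀ x, u i (τ x) = u i x + π * h x) {f : N → K} (hf : Sm w u f)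
    (j : ℕ) : ∃ h, Sm w u h ∧ ∀ x n,
      (fwdDiff 1)^[j] (fun n => f (τ^[n] x)) n = π ^ j * h (τ^[n] x) := by
  induction j with
  | zero =>
    refine ⟨f, hf, fun x n => ?_⟩
    simp
  | succ j ih =>
    obtain ⟨h, hh, hh'⟩ := ih
    obtain ⟨g, hg, hg'⟩ := hh.step hπ hτ
    refine ⟨g, hg, fun x n => ?_⟩
    rw [Function.iterate_succ_apply', fwdDiff, hh' x n, hh' x (n + 1),
      Function.iterate_succ_apply', hg']
    ring

/-- the values of a polynomial in the coordinates are smooth -/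
theorem poly_smooth (hw : Um w) (hu : ∀ i x, w (u i x) ≤ 1) {π : K} (hπ : w π ≤ 1) {τ : N → N}
    (hτ : ∀ i, ∃ h, Sm w u h ∧ ∀ x, u i (τ x) = u i x + π * h x) (G : MvPolynomial ι K) (x : N) :
    ∃ C : ℝ, 0 ≤ C ∧ ∀ j : ℕ,
      w ((fwdDiff 1)^[j] (fun n => eval (fun i => u i (τ^[n] x)) G) 0) ≤ C * w π ^ j := by
  classical
  refine ⟨∑ m ∈ G.support, w (coeff m G), Finset.sum_nonneg fun _ _ => w.nonneg _, fun j => ?_⟩
  have h1 : (fun n : ℕ => eval (fun i => u i (τ^[n] x)) G) =
      ∑ m ∈ G.support, coeff m G • (fun n : ℕ => ∏ i ∈ m.support, u i (τ^[n] x) ^ m i) := by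
    funext n
    rw [eval_eq, Finset.sum_apply]
    rfl
  rw [h1, fwdDiff_iter_finsetSum, Finset.sum_apply]
  refine um_sum hw _ _ _ (mul_nonneg (Finset.sum_nonneg fun _ _ => w.nonneg _)
    (pow_nonneg (w.nonneg _) _)) (fun m hm => ?_)
  rw [fwdDiff_iter_const_smul, Pi.smul_apply, smul_eq_mul, w.map_mul]
  obtain ⟨h, hh, hh'⟩ := Sm.iter hπ hτ
    (Sm.prod (w := w) (u := u) m.support (fun i x => u i x ^ m i) (fun i _ => (Sm.crd i).pow _)) j
  rw [hh' x 0, w.map_mul, w.map_pow]
  have h2 : w (h (τ^[0] x)) ≤ 1 := hh.le hw hu _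
  have h3 : w (coeff m G) ≤ ∑ m ∈ G.support, w (coeff m G) :=
    Finset.single_le_sum (f := fun m => w (coeff m G)) (fun _ _ => w.nonneg _) hm
  refine mul_le_mul h3 ?_ (mul_nonneg (pow_nonneg (w.nonneg _) _) (w.nonneg _))
    (Finset.sum_nonneg fun _ _ => w.nonneg _)
  calc w π ^ j * w (h (τ^[0] x)) ≤ w π ^ j * 1 :=
        mul_le_mul_of_nonneg_left h2 (pow_nonneg (w.nonneg _) _)
    _ = w π ^ j := mul_one _

end Pool.Agent.J4H27.CY
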