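import Pool.Agent.J4H27.CY.Orb

/-!
# Zeros of forms on an orbit of a translation: a uniform bound
-/

set_option autoImplicit false
set_option linter.unusedSectionVars false

open MvPolynomial NumberField Pool.Agent.TH954.X Pool.Agent.TH954.Z Pool.Agent.TH954.Z.Dns
  Pool.Agent.J4H27.ML

namespace Pool.Agent.J4H27.CY

section near

variable {K : Type} [Field K] [CharZero K] {n β : ℕ} {w : AbsoluteValue K ℝ}
  {A : Fin β → AbV K n} {i0 : Fin β → Fin n} {π : K}

lemma zeros_near (hw : Um w) (hG : ∀ b, Gd w (A b).toAbR (i0 b)) {p : ℕ} (hp : p.Prime)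
    (hp1 : w (p : K) < 1) (hπ : π = (p : K) ^ 2) (hπ1 : w π < 1) (q x0 : NR w A i0 π)
    (V : Type) [AddCommGroup V] [Module K V] [FiniteDimensional K V]
    (L : V →ₗ[K] MvPolynomial (Fin β × Fin n) K) : ∃ B : ℕ, ∀ v : V,
      (∃ k : ℕ, eval (fun t => uu t ((tau hG hπ1 q)^[k] x0)) (L v) ≠ 0) → ∀ s : Finset ℕ,
        (∀ k ∈ s, eval (fun t => uu t ((tau hG hπ1 q)^[k] x0)) (L v) = 0) → s.card ≤ B := by
  have hπ0 : π ≠ 0 := by
    rw [hπ]
    exact pow_ne_zero _ (by exact_mod_cast hp.ne_zero)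
  let e : ℕ → Module.Dual K V := fun k =>
    (aeval (fun t => uu t ((tau hG hπ1 q)^[k] x0)) :
      MvPolynomial (Fin β × Fin n) K →ₐ[K] K).toLinearMap ∘ₗ L
  have he0 : ∀ k v, e k v = eval (fun t => uu t ((tau hG hπ1 q)^[k] x0)) (L v) := by
    intro k v
    change aeval (fun t => uu t ((tau hG hπ1 q)^[k] x0)) (L v) = _
    rw [← coe_aeval_eq_eval]
    rfl
  have he : ∀ v : V, ∃ C : ℝ, 0 ≤ C ∧ ∀ j,
      w ((fwdDiff 1)^[j] (fun n => e n v) 0) ≤ C * w (p : K) ^ j * w (j.factorial : K) := by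
    intro v
    obtain ⟨C, hC, h1⟩ := poly_smooth (u := uu) hw (uu_le hG hπ1) hπ1.le
      (step_uu hG hπ0 hπ1 q) (L v) x0
    refine ⟨C, hC, fun j => ?_⟩
    have h2 : (fun n => e n v) = fun n => eval (fun t => uu t ((tau hG hπ1 q)^[n] x0)) (L v) :=
      funext fun n => he0 n v
    rw [h2]
    refine (h1 j).trans ?_
    rw [hπ, w.map_pow, ← pow_mul, mul_comm 2 j, pow_mul, pow_two, mul_assoc]
    refine mul_le_mul_of_nonneg_left ?_ hC
    exact mul_le_mul_of_nonneg_left (fac_ge hw hp hp1 j) (pow_nonneg (w.nonneg _) _)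
  obtain ⟨B, hB⟩ := uniform hw (w.nonneg _) hp1 V e he
  refine ⟨B, fun v hv s hs => hB v ?_ s ?_⟩
  · obtain ⟨k, hk⟩ := hv
    exact ⟨k, by rw [he0]; exact hk⟩
  · intro k hk
    rw [he0]
    exact hs k hk

end near

section places

variable {K : Type} [Field K] [NumberField K] {n β : ℕ}

theorem good_place (A : Fin β → AbV K n) : ∃ (v : FinitePlace K) (i0 : Fin β → Fin n),
    ∀ b, Gd v.val (A b).toAbR (i0 b) := by
  classical
  choose i0 hi0 _ using fun b => (0 : (A b).Pt K).2.1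
  let S0 : Finset K := (Finset.univ : Finset (Fin β × Fin n × Fin n)).biUnion
    (fun t => ((A t.1).Λ t.2.1 t.2.2).support.image (fun m => coeff m ((A t.1).Λ t.2.1 t.2.2)))
  let S1 : Finset K := Finset.univ.image (fun t : Fin β × Fin n => (0 : (A t.1).Pt K).1 t.2)
  let S2 : Finset K := Finset.univ.image (fun b : Fin β =>
    ev ((A b).Λ (i0 b) (i0 b)) ![(0 : (A b).Pt K).1, (0 : (A b).Pt K).1])
  obtain ⟨v, hv⟩ := exists_place ((S0 ∪ S1 ∪ S2).filter (fun a => a ≠ 0)) (by simp)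
  have hv' : ∀ a ∈ S0 ∪ S1 ∪ S2, v.val a ≤ 1 := by
    intro a ha
    by_cases h0 : a = 0
    · rw [h0, v.val.map_zero]
      exact zero_le_one
    · exact (hv a (Finset.mem_filter.2 ⟨ha, h0⟩)).le
  refine ⟨v, i0, fun b => ⟨um_place v, fun i j m => ?_, hi0 b, fun c => ?_, ?_⟩⟩
  · by_cases hm : m ∈ ((A b).Λ i j).support
    · refine hv' _ (Finset.mem_union_left _ (Finset.mem_union_left _ ?_))
      exact Finset.mem_biUnion.2 ⟨(b, i, j), Finset.mem_univ _, Finset.mem_image.2 ⟨m, hm, rfl⟩⟩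
    · rw [notMem_support_iff.1 hm, v.val.map_zero]
      exact zero_le_one
  · exact hv' _ (Finset.mem_union_left _ (Finset.mem_union_right _
      (Finset.mem_image.2 ⟨(b, c), Finset.mem_univ _, rfl⟩)))
  · refine hv _ (Finset.mem_filter.2 ⟨Finset.mem_union_right _
      (Finset.mem_image.2 ⟨b, Finset.mem_univ _, rfl⟩), ?_⟩)
    obtain ⟨s, hs, hs'⟩ : ∃ s : K, s ≠ 0 ∧ ∀ i j, ev ((A b).Λ i j)
      ![(0 : (A b).Pt K).1, (0 : (A b).Pt K).1] = s * (((0 : (A b).Pt K) + 0).1 i *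
        ((0 : (A b).Pt K) - 0).1 j) := (A b).Λ_spec K 0 0
    rw [hs', add_zero, sub_zero, hi0 b, mul_one, mul_one]
    exact hs

theorem near_mult {A : Fin β → AbV K n} {v : FinitePlace K} {i0 : Fin β → Fin n}
    (hG : ∀ b, Gd v.val (A b).toAbR (i0 b)) (P : Bp A K) {ρ : ℝ} (hρ0 : 0 < ρ) (hρ1 : ρ < 1) :
    ∃ N' : ℕ, 0 < N' ∧ ∀ b, Nr v.val (A b).toAbR (i0 b) ρ ((N' • P) b) := by
  classical
  choose κ hκ1 hκ2 using fun b => Λ_low (A b).toAbR v.val
  set K0 : ℝ := ∑ b, κ b + 1 with hK0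
  have hK0' : ∀ b, κ b ≤ K0 := by
    intro b
    have h1 : κ b ≤ ∑ b, κ b := Finset.single_le_sum (f := κ)
      (fun i _ => zero_le_one.trans (hκ1 i)) (Finset.mem_univ b)
    linarith
  have hK0pos : 0 < K0 := by
    have h1 : 0 ≤ ∑ b, κ b := Finset.sum_nonneg fun i _ => zero_le_one.trans (hκ1 i)
    linarith
  have hidx : ∀ (m : ℕ) (b : Fin β), ∃ i, ((m • P) b).1 i ≠ 0 ∧
      ∀ c, v.val (((m • P) b).1 c) ≤ v.val (((m • P) b).1 i) := by
    intro m b
    obtain ⟨i1, hi1, -⟩ := ((m • P) b).2.1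
    have : Nonempty (Fin n) := ⟨i1⟩
    obtain ⟨i, hi⟩ := Finite.exists_max (fun c => v.val (((m • P) b).1 c))
    refine ⟨i, fun h0 => ?_, hi⟩
    have h1 := hi i1
    rw [h0, v.val.map_zero] at h1
    rw [hi1, v.val.map_one] at h1
    linarith
  choose idx hidx1 hidx2 using hidx
  have hx : ∀ (m : ℕ) (t : Fin β × Fin n),
      v.val (((m • P) t.1).1 t.2 / ((m • P) t.1).1 (idx m t.1)) ≤ 1 := by
    intro m t
    rw [map_div₀, div_le_one (v.val.pos (hidx1 m t.1))]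
    exact hidx2 m t.1 t.2
  obtain ⟨m, m', hmm, h⟩ := pigeon v (ε := ρ / K0) (by positivity)
    (fun (m : ℕ) (t : Fin β × Fin n) => ((m • P) t.1).1 t.2 / ((m • P) t.1).1 (idx m t.1)) hx
  refine ⟨m' - m, by omega, fun b => ?_⟩
  have h1 : ((m' - m) • P) b = (m' • P) b - (m • P) b := by
    have h2 : m' • P = (m' - m) • P + m • P := by
      rw [← add_nsmul]
      congr 1
      omega
    rw [h2, Pi.add_apply, add_sub_cancel_right]
  rw [h1]
  refine near_of_cong (hG b) (hκ1 b) (hκ2 b) (ε := ρ / K0) hρ0 hρ1 (by positivity) ?_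
    (hidx1 m b) (hidx1 m' b) (fun c => hx m (b, c)) (fun c => hx m' (b, c))
    (fun c => (h (b, c)).le)
  rw [div_mul_eq_mul_div, div_le_iff₀ hK0pos]
  exact mul_le_mul_of_nonneg_left (hK0' b) hρ0.le

end places

section orbit

variable {K : Type} [Field K] [NumberField K] {n β : ℕ}

lemma MH_totalDegree {δ : Fin β → ℕ} {Φ : MvPolynomial (Fin β × Fin n) K} (hΦ : MH δ Φ) :
    Φ.totalDegree ≤ ∑ b, δ b := by
  refine Finset.sup_le (fun m hm => le_of_eq ?_)
  rw [Finsupp.sum_fintype _ _ (fun _ => rfl), Fintype.sum_prod_type]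
  exact Finset.sum_congr rfl (fun b _ => hΦ m hm b)

/-- forms of given multidegree which do not vanish identically have a bounded number of zeros on an
orbit -/
theorem orbit_zeros (A : Fin β → AbV K n) (P Q0 : Bp A K)
    (hd : ∀ (Φ : MvPolynomial (Fin β × Fin n) K) (δ : Fin β → ℕ), MH δ Φ →
      (∀ m : ℕ, ev Φ (vc (Q0 + m • P)) = 0) → ¬ NZ A Φ) (δ : Fin β → ℕ) :
    ∃ B : ℕ, ∀ Φ : MvPolynomial (Fin β × Fin n) K, MH δ Φ → NZ A Φ → ∀ s : Finset ℕ,
      (∀ m ∈ s, ev Φ (vc (Q0 + m • P)) = 0) → s.card ≤ B := by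
  classical
  obtain ⟨v, i0, hG⟩ := good_place A
  obtain ⟨p, hp, hp1⟩ := exists_prime_lt v
  have hp0 : 0 < v.val (p : K) := v.val.pos (by exact_mod_cast hp.ne_zero)
  set π : K := (p : K) ^ 2 with hπ
  have hπ0' : 0 < v.val π := by
    rw [hπ, v.val.map_pow]
    exact pow_pos hp0 2
  have hπ1 : v.val π < 1 := by
    rw [hπ, v.val.map_pow]
    exact pow_lt_one₀ hp0.le hp1 two_ne_zero
  obtain ⟨N', hN', hq⟩ := near_mult hG P hπ0' hπ1
  let q : NR v.val A i0 π := ⟨N' • P, hq⟩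
  let x0 : NR v.val A i0 π := ⟨0, fun b => Nr.zero (hG b) (v.val.nonneg _)⟩
  let V := restrictTotalDegree (Fin β × Fin n) K (∑ b, δ b)
  let L : ℕ → (Fin β → Fin n) → V →ₗ[K] MvPolynomial (Fin β × Fin n) K := fun r j0 =>
    (aeval (fun t : Fin β × Fin n => Tr (K := K) (F := K) A (vc (Q0 + r • P)) j0 t.1 t.2) :
      MvPolynomial (Fin β × Fin n) K →ₐ[K] MvPolynomial (Fin β × Fin n) K).toLinearMap ∘ₗ
      V.subtype
  have hL : ∀ r j0 (Φ : V), L r j0 Φ = sh A (vc (Q0 + r • P)) j0 Φ := fun r j0 Φ => rfl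
  choose B hB using fun (r : ℕ) (j0 : Fin β → Fin n) =>
    zeros_near (um_place v) hG hp hp1 hπ hπ1 q x0 V (L r j0)
  refine ⟨∑ r ∈ Finset.range N', ∑ j0, B r j0, fun Φ hΦ hNZ s hs => ?_⟩
  -- the values at the multiples of `q`
  have hval : ∀ (Ψ : MvPolynomial (Fin β × Fin n) K) (σ : Fin β → ℕ), MH σ Ψ → ∀ k : ℕ,
      (eval (fun t => uu t ((tau hG hπ1 q)^[k] x0)) Ψ = 0 ↔
        ev Ψ (vc (k • (N' • P))) = 0) := by
    intro Ψ σ hΨ k
    set y := (tau hG hπ1 q)^[k] x0 with hy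
    have hy1 : y.1 = k • (N' • P) := by
      rw [hy, tau_iter]
      change 0 + k • (N' • P) = _
      rw [zero_add]
    have h1 : eval (fun t => uu t y) Ψ =
        ev Ψ (fun b => ((y.1 b).1 (i0 b))⁻¹ • vc y.1 b) := by
      unfold ev
      rw [← coe_aeval_eq_eval]
      change aeval _ Ψ = _
      congr 2
      funext t
      change af (A t.1).toAbR (i0 t.1) (y.1 t.1) t.2 = _
      unfold af
      rw [div_eq_inv_mul]
      rfl
    rw [h1, ev_smul hΨ, hy1, mul_eq_zero]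
    refine ⟨fun h => h.resolve_left ?_, Or.inr⟩
    refine Finset.prod_ne_zero_iff.2 fun b _ => pow_ne_zero _ (inv_ne_zero ?_)
    rw [← hy1]
    exact (y.2 b).1
  choose j0 hj0 using fun r : ℕ => NZ_sh (A := A) (Q0 + r • P) hΦ hNZ
  let ΦV : V := ⟨Φ, (mem_restrictTotalDegree _ _ _).2 (MH_totalDegree hΦ)⟩
  -- the zeros in a residue class
  have hres : ∀ r ∈ Finset.range N', ((s.filter (fun m => m % N' = r)).image
      (fun m => m / N')).card ≤ B r (j0 r) := by
    intro r _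
    obtain ⟨σ, hσ⟩ := MH_sh (A := A) (vc (Q0 + r • P)) (j0 r) hΦ
    refine hB r (j0 r) ΦV ?_ _ ?_
    · by_contra hno
      push Not at hno
      refine dens_near hd hN' hσ (fun k => ?_) (hj0 r)
      rw [← hval _ σ hσ k]
      exact hno k
    · intro k hk
      obtain ⟨m, hm, hmk⟩ := Finset.mem_image.1 hk
      obtain ⟨hm1, hm2⟩ := Finset.mem_filter.1 hm
      rw [hL]
      change eval _ (sh A (vc (Q0 + r • P)) (j0 r) Φ) = 0
      rw [hval _ σ hσ k]
      refine sh_zero hΦ ?_ _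
      have h3 : k • (N' • P) + (Q0 + r • P) = Q0 + m • P := by
        have h4 : m • P = k • (N' • P) + r • P := by
          rw [smul_smul, ← add_smul, ← hmk, ← hm2, mul_comm, Nat.div_add_mod]
        rw [h4]
        abel
      rw [h3]
      exact hs m hm1
  have hcard : s.card = ∑ r ∈ Finset.range N', (s.filter (fun m => m % N' = r)).card :=
    Finset.card_eq_sum_card_fiberwise (fun m _ => Finset.mem_coe.2
      (Finset.mem_range.2 (Nat.mod_lt m hN')))
  rw [hcard]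
  refine Finset.sum_le_sum (fun r hr => ?_)
  have h1 : (s.filter (fun m => m % N' = r)).card = ((s.filter (fun m => m % N' = r)).image
      (fun m => m / N')).card := by
    refine (Finset.card_image_of_injOn ?_).symm
    intro a ha b hb hab
    have ha' := (Finset.mem_filter.1 (Finset.mem_coe.1 ha)).2
    have hb' := (Finset.mem_filter.1 (Finset.mem_coe.1 hb)).2
    beta_reduce at hab
    rw [← Nat.div_add_mod a N', ← Nat.div_add_mod b N', ha', hb', hab]
  rw [h1]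
  exact (hres r hr).trans (Finset.single_le_sum (f := fun j0 => B r j0)
    (fun _ _ => Nat.zero_le _) (Finset.mem_univ (j0 r)))

end orbit

end Pool.Agent.J4H27.CY
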